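import Pool.Agent.Helper42.KN.Mono

/-!
# KN-C: the transfer inequality
-/

set_option autoImplicit false

namespace Pool.Agent.Helper42.KN

open Complex Metric Pool.Agent.Helper42.LB

variable {w w' : ℂ}

/-- `|1 + w|^2 = 1 + |w|^2 + 2 Re w` -/
theorem NN_eq (h : w ≠ 0) : NN w = 2 * XX w + 2 * (w.re / ‖w‖) := by
  have h1 : ‖w‖ ≠ 0 := norm_ne_zero_iff.2 h
  have h2 : ‖1 + w‖ ^ 2 = 1 + ‖w‖ ^ 2 + 2 * w.re := by
    rw [← normSq_eq_norm_sq, ← normSq_eq_norm_sq, normSq_apply, normSq_apply, add_re, add_im,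
      one_re, one_im]
    ring
  unfold NN XX
  rw [h2]
  field_simp
  ring

theorem NN_neg (h : w ≠ 0) : NN (-w) = 2 * XX w - 2 * (w.re / ‖w‖) := by
  rw [NN_eq (neg_ne_zero.2 h)]
  unfold XX
  rw [norm_neg, neg_re]
  ring

theorem NN_I (h : w ≠ 0) : NN (I * w) = 2 * XX w - 2 * (w.im / ‖w‖) := by
  rw [NN_eq (mul_ne_zero I_ne_zero h)]
  unfold XX
  rw [norm_mul, norm_I, one_mul, I_mul_re]
  ring

theorem NN_negI (h : w ≠ 0) : NN (-(I * w)) = 2 * XX w + 2 * (w.im / ‖w‖) := by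
  rw [NN_neg (mul_ne_zero I_ne_zero h)]
  unfold XX
  rw [norm_mul, norm_I, one_mul, I_mul_re]
  ring

theorem re_im_sq (h : w ≠ 0) : (w.re / ‖w‖) ^ 2 + (w.im / ‖w‖) ^ 2 = 1 := by
  have h1 : ‖w‖ ≠ 0 := norm_ne_zero_iff.2 h
  have h2 : ‖w‖ ^ 2 = w.re ^ 2 + w.im ^ 2 := by
    rw [← normSq_eq_norm_sq, normSq_apply]
    ring
  rw [div_pow, div_pow, ← add_div, ← h2]
  exact div_self (pow_ne_zero 2 h1)

theorem XX_ge (h : w ≠ 0) : 1 ≤ XX w := by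
  have h1 : 0 < ‖w‖ := norm_pos_iff.2 h
  have h2 : ‖w‖ * (1 / ‖w‖) = 1 := mul_one_div_cancel h1.ne'
  have h3 : 0 < 1 / ‖w‖ := by positivity
  unfold XX
  nlinarith [sq_nonneg (‖w‖ - 1 / ‖w‖)]

theorem NN_pos (hw : w ∈ ball (0 : ℂ) 1) (h : w ≠ 0) : 0 < NN w := by
  have h1 : 0 < ‖w‖ := norm_pos_iff.2 h
  have h2 : 1 + w ≠ 0 := by
    intro h3
    have h4 : w = -1 := by linear_combination h3
    rw [mem_ball_zero_iff, h4, norm_neg, norm_one] at hw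
    exact lt_irrefl _ hw
  have h3 : 0 < ‖1 + w‖ := norm_pos_iff.2 h2
  unfold NN
  positivity

theorem NN_le (h : w ≠ 0) : NN w ≤ 4 * XX w := by
  rw [NN_eq h]
  have h1 := XX_ge h
  have h2 := re_im_sq h
  have h3 : w.re / ‖w‖ ≤ 1 := by
    nlinarith [sq_nonneg (w.im / ‖w‖), sq_nonneg (w.re / ‖w‖ - 1)]
  linarith

/-- `(1 + I w)(1 - I w) = 1 + w^2` -/
theorem one_add_sq (h : w ≠ 0) : ‖1 + w ^ 2‖ ^ 2 = ‖w‖ ^ 2 * (NN (I * w) * NN (-(I * w))) := by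
  have h0 : ‖w‖ ≠ 0 := norm_ne_zero_iff.2 h
  have h1 : 1 + w ^ 2 = (1 + I * w) * (1 + -(I * w)) := by
    linear_combination (w ^ 2) * I_sq
  have h2 : ‖I * w‖ = ‖w‖ := by rw [norm_mul, norm_I, one_mul]
  unfold NN
  rw [norm_neg, h2, h1, norm_mul]
  field_simp

/-- from `Phi_rel`: `2 Phi (1 + w^2) = w (1 + Phi)^2`; subtract `4 w Phi` -/
theorem Phi_kb (hw : w ∈ ball (0 : ℂ) 1) : 2 * Phi w * (1 - w) ^ 2 = w * (1 - Phi w) ^ 2 := by
  have h1 := VV_add_ne hw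
  have h2 := VV_sub_mul hw
  have h3 := one_sub_ne hw
  have h4 : (VV w - 1) * (VV w + 1) * (1 - w) ^ 2 = 2 * w := by
    rw [h2]
    field_simp
  unfold Phi
  have h5 : 1 - (VV w - 1) / (VV w + 1) = 2 / (VV w + 1) := by
    field_simp
    ring
  rw [h5]
  field_simp
  linear_combination h4

/-- `NN (-w') = |1 - w'|^2 / |w'| = |1 - Phi w'|^2 / (2 |Phi w'|)` (`Phi_kb`) and
`1 - w^4 = (1 - w)(1 + w)(1 - I w)(1 + I w)`. -/
theorem NN_prod (hw' : w' ∈ ball (0 : ℂ) 1) (h' : w' ≠ 0) (hw : w ∈ ball (0 : ℂ) 1) (h : w ≠ 0)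
    (hP : w ^ 4 = Phi w') :
    2 * NN (-w') = NN w * NN (-w) * (NN (I * w) * NN (-(I * w))) := by
  have h0 : ‖w‖ ≠ 0 := norm_ne_zero_iff.2 h
  have h0' : ‖w'‖ ≠ 0 := norm_ne_zero_iff.2 h'
  have h1 := congrArg norm (Phi_kb hw')
  rw [← hP, norm_mul, norm_mul, norm_mul, norm_pow, norm_pow, norm_pow, Complex.norm_ofNat] at h1
  have h2 : 1 - w ^ 4 = (1 + w) * (1 + -w) * ((1 + I * w) * (1 + -(I * w))) := by
    linear_combination (w ^ 2 * (1 - w ^ 2)) * I_sq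
  have h3 : ‖I * w‖ = ‖w‖ := by rw [norm_mul, norm_I, one_mul]
  rw [h2, norm_mul, norm_mul, norm_mul] at h1
  unfold NN
  rw [norm_neg, norm_neg, norm_neg, h3, ← sub_eq_add_neg 1 w']
  rw [mul_div_assoc', div_mul_div_comm, div_mul_div_comm, div_mul_div_comm,
    div_eq_div_iff h0' (by positivity)]
  linear_combination h1

private theorem exp_pp_LL_mul_I (hw : w ∈ ball (0 : ℂ) 1) : I * w ∈ ball (0 : ℂ) 1 := by
  rw [mem_ball_zero_iff] at hw ⊢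
  rw [norm_mul, norm_I, one_mul]
  exact hw

private theorem exp_pp_LL_neg (hw : w ∈ ball (0 : ℂ) 1) : -w ∈ ball (0 : ℂ) 1 := by
  rw [mem_ball_zero_iff] at hw ⊢
  rw [norm_neg]
  exact hw

private theorem exp_pp_LL_M (hw : w ∈ ball (0 : ℂ) 1) (h : w ≠ 0) :
    0 < NN (I * w) * NN (-(I * w)) :=
  mul_pos (NN_pos (exp_pp_LL_mul_I hw) (mul_ne_zero I_ne_zero h))
    (NN_pos (exp_pp_LL_neg (exp_pp_LL_mul_I hw)) (neg_ne_zero.2 (mul_ne_zero I_ne_zero h)))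

private theorem exp_pp_LL_two (hw : w ∈ ball (0 : ℂ) 1) (h : w ≠ 0) :
    Real.exp (2 * (LL w).re) = NN w * (NN (I * w) * NN (-(I * w))) ^ (-(1 / 2) : ℝ) := by
  have hM := exp_pp_LL_M hw h
  have h0 : 0 < ‖w‖ := norm_pos_iff.2 h
  have h1 : (1 + w ^ 2 : ℂ) ≠ 0 := by
    intro h2
    have h3 : w ^ 2 = -1 := by linear_combination h2
    have h4 : ‖w‖ ^ 2 = 1 := by rw [← norm_pow, h3, norm_neg, norm_one]
    have h5 : ‖w‖ < 1 := mem_ball_zero_iff.1 hw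
    nlinarith
  have h2 : exp (2 * LL w) = (1 + w) ^ 2 / (1 + w ^ 2) := by
    rw [exp_two_LL hw]
    field_simp
    ring
  have h3 : Real.exp (2 * (LL w).re) = ‖1 + w‖ ^ 2 / ‖1 + w ^ 2‖ := by
    have h4 := congrArg (fun z : ℂ => ‖z‖) h2
    simp only [norm_exp, norm_div, norm_pow] at h4
    rw [← h4]
    congr 1
    simp
  have h4 : ‖1 + w ^ 2‖ = ‖w‖ * Real.sqrt (NN (I * w) * NN (-(I * w))) := by
    have h5 := one_add_sq h
    rw [← Real.sqrt_sq (norm_nonneg (1 + w ^ 2)), h5, Real.sqrt_mul (sq_nonneg _),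
      Real.sqrt_sq h0.le]
  rw [h3, h4, Real.rpow_neg hM.le, ← Real.sqrt_eq_rpow]
  unfold NN
  field_simp

/-- `exp_two_LL`: `exp (2 LL w) = (1 + w)^2 / (1 + w^2)`, norms, `one_add_sq`:
`exp (2 Re LL w) = NN w / (NN (I w) NN (-I w))^(1/2)`; power `pp / 2`. -/
theorem exp_pp_LL (hw : w ∈ ball (0 : ℂ) 1) (h : w ≠ 0) :
    Real.exp (pp * (LL w).re) = NN w ^ (341 / 2000 : ℝ) *
      (NN (I * w) * NN (-(I * w))) ^ (-(341 / 4000) : ℝ) := by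
  have hM := exp_pp_LL_M hw h
  have hN := NN_pos hw h
  have h1 : pp * (LL w).re = 2 * (LL w).re * (341 / 2000) := by
    unfold pp
    ring
  rw [h1, Real.exp_mul, exp_pp_LL_two hw h, Real.mul_rpow hN.le (Real.rpow_nonneg hM.le _),
    ← Real.rpow_mul hM.le]
  norm_num

/-- `exp_pp_LL`, `NN_prod`, `Real.mul_rpow`, `Real.rpow_add`: with `q = 341/4000`,
`NN w^(2q) (N₁ N₃)^(-q) N₂^(-q) (1 + ..) (N₀ N₂ N₁ N₃ / 2)^q = 2^(-q) N₀^(3q) (1 + ..)`. -/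
theorem transfer_term (hw' : w' ∈ ball (0 : ℂ) 1) (h' : w' ≠ 0) (hw : w ∈ ball (0 : ℂ) 1)
    (h : w ≠ 0) (hP : w ^ 4 = Phi w') :
    Real.exp (pp * (LL w).re) * hh w * NN (-w') ^ (341 / 4000 : ℝ) =
      kp * (NN w ^ aa * (1 + 205 / 1000 * NN (-w) ^ aa)) := by
  have hM := exp_pp_LL_M hw h
  have hN := NN_pos hw h
  have hN2 : 0 < NN (-w) := NN_pos (exp_pp_LL_neg hw) (neg_ne_zero.2 h)
  have h1 : NN (-w') = 2⁻¹ * (NN w * NN (-w) * (NN (I * w) * NN (-(I * w)))) := by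
    rw [← NN_prod hw' h' hw h hP, ← mul_assoc]
    norm_num
  rw [exp_pp_LL hw h, h1]
  unfold hh
  generalize NN (I * w) * NN (-(I * w)) = M at *
  generalize NN (-w) = N2 at *
  generalize NN w = N0 at *
  rw [Real.mul_rpow (by norm_num) (by positivity), Real.mul_rpow (by positivity) hM.le,
    Real.mul_rpow hN.le hN2.le]
  have e1 : N0 ^ aa = N0 ^ (341 / 2000 : ℝ) * N0 ^ (341 / 4000 : ℝ) := by
    rw [← Real.rpow_add hN]
    congr 1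
    unfold aa
    norm_num
  have e2 : M ^ (-(341 / 4000) : ℝ) * M ^ (341 / 4000 : ℝ) = 1 := by
    rw [← Real.rpow_add hM, neg_add_cancel, Real.rpow_zero]
  have e3 : N2 ^ (-(341 / 4000) : ℝ) * N2 ^ (341 / 4000 : ℝ) = 1 := by
    rw [← Real.rpow_add hN2, neg_add_cancel, Real.rpow_zero]
  have e4 : (2⁻¹ : ℝ) ^ (341 / 4000 : ℝ) = kp := by
    unfold kp
    rw [Real.rpow_neg (by norm_num), Real.inv_rpow (by norm_num)]
  rw [e1, e4]
  calc N0 ^ (341 / 2000 : ℝ) * M ^ (-(341 / 4000) : ℝ) *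
        (N2 ^ (-(341 / 4000) : ℝ) * (1 + 205 / 1000 * N2 ^ aa)) *
        (kp * (N0 ^ (341 / 4000 : ℝ) * N2 ^ (341 / 4000 : ℝ) * M ^ (341 / 4000 : ℝ)))
      = (M ^ (-(341 / 4000) : ℝ) * M ^ (341 / 4000 : ℝ)) *
        (N2 ^ (-(341 / 4000) : ℝ) * N2 ^ (341 / 4000 : ℝ)) *
        (kp * (N0 ^ (341 / 2000 : ℝ) * N0 ^ (341 / 4000 : ℝ) * (1 + 205 / 1000 * N2 ^ aa))) := by
        ring
    _ = kp * (N0 ^ (341 / 2000 : ℝ) * N0 ^ (341 / 4000 : ℝ) * (1 + 205 / 1000 * N2 ^ aa)) := by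
        rw [e2, e3, one_mul, one_mul]

/-- `transfer_term` for the four points `w, I w, -w, -I w` (they have the same fourth power);
`hh w' NN (-w')^(341/4000) = 1 + 0.205 NN (-w')^aa`; the difference of the two sides times
`NN (-w')^(341/4000)` is `FF (XX w) (re w / |w|) (im w / |w|)` (`NN_eq` etc., `NN_prod`); `two_dim`. -/
theorem transfer (hw' : w' ∈ ball (0 : ℂ) 1) (h' : w' ≠ 0) (hw : w ∈ ball (0 : ℂ) 1) (h : w ≠ 0)
    (hP : w ^ 4 = Phi w') (hX : XX w ≤ 223 / 200) :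
    10326 / 10000 * hh w' ≤ mean4 (fun v => Real.exp (pp * (LL v).re) * hh v) w := by
  have hnw : -w ∈ ball (0 : ℂ) 1 := by
    rw [mem_ball_zero_iff] at hw ⊢
    rwa [norm_neg]
  have hiw : I * w ∈ ball (0 : ℂ) 1 := by
    rw [mem_ball_zero_iff] at hw ⊢
    rwa [norm_mul, norm_I, one_mul]
  have hniw : -(I * w) ∈ ball (0 : ℂ) 1 := by
    rw [mem_ball_zero_iff] at hiw ⊢
    rwa [norm_neg]
  have hnw' : -w' ∈ ball (0 : ℂ) 1 := by
    rw [mem_ball_zero_iff] at hw' ⊢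
    rwa [norm_neg]
  have hn0 : -w ≠ 0 := neg_ne_zero.mpr h
  have hi0 : I * w ≠ 0 := mul_ne_zero I_ne_zero h
  have hni0 : -(I * w) ≠ 0 := neg_ne_zero.mpr hi0
  have hn0' : -w' ≠ 0 := neg_ne_zero.mpr h'
  have hI4 : (I * w) ^ 4 = w ^ 4 := by
    rw [mul_pow, I_pow_four, one_mul]
  have t0 := transfer_term hw' h' hw h hP
  have t1 := transfer_term hw' h' hiw hi0 (hI4.trans hP)
  have t2 := transfer_term hw' h' hnw hn0 (by rw [← hP]; ring)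
  have t3 := transfer_term hw' h' hniw hni0 (by rw [← hP, ← hI4]; ring)
  rw [neg_neg] at t2 t3
  have p0 := NN_pos hw h
  have p1 := NN_pos hiw hi0
  have p2 := NN_pos hnw hn0
  have p3 := NN_pos hniw hni0
  have p' := NN_pos hnw' hn0'
  have hprod := NN_prod hw' h' hw h hP
  have hCS := re_im_sq h
  have hX1 := XX_ge h
  have hF := two_dim hX1 hX hCS
  have e0 := NN_eq h
  have e2 := NN_neg h
  have e1 := NN_I h
  have e3 := NN_negI h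
  obtain ⟨t, ht⟩ : ∃ t, t = NN (-w') ^ (341 / 4000 : ℝ) := ⟨_, rfl⟩
  have htpos : 0 < t := by rw [ht]; exact Real.rpow_pos_of_pos p' _
  rw [← ht] at t0 t1 t2 t3
  have hh' : hh w' * t = 1 + 205 / 1000 * NN (-w') ^ aa := by
    rw [hh, ht]
    have h1 : NN (-w') ^ (-(341 / 4000) : ℝ) * NN (-w') ^ (341 / 4000 : ℝ) = 1 := by
      rw [← Real.rpow_add p']
      norm_num
    calc NN (-w') ^ (-(341 / 4000) : ℝ) * (1 + 205 / 1000 * NN (-w') ^ aa) *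
          NN (-w') ^ (341 / 4000 : ℝ)
        = (NN (-w') ^ (-(341 / 4000) : ℝ) * NN (-w') ^ (341 / 4000 : ℝ)) *
            (1 + 205 / 1000 * NN (-w') ^ aa) := by ring
      _ = _ := by rw [h1, one_mul]
  have m02 : NN w ^ aa * NN (-w) ^ aa = (NN w * NN (-w)) ^ aa := (Real.mul_rpow p0.le p2.le).symm
  have m13 : NN (I * w) ^ aa * NN (-(I * w)) ^ aa = (NN (I * w) * NN (-(I * w))) ^ aa :=
    (Real.mul_rpow p1.le p3.le).symm
  have hN' : NN (-w') = NN w * NN (-w) * (NN (I * w) * NN (-(I * w))) / 2 := by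
    rw [← hprod]; ring
  have f02 : NN w * NN (-w) = 4 * XX w ^ 2 - 4 * (w.re / ‖w‖) ^ 2 := by
    rw [e0, e2]; ring
  have f13 : NN (I * w) * NN (-(I * w)) = 4 * XX w ^ 2 - 4 * (w.im / ‖w‖) ^ 2 := by
    rw [e1, e3]; ring
  have hsum : mean4 (fun v => Real.exp (pp * (LL v).re) * hh v) w * t =
      kp / 4 * (NN w ^ aa + NN (-w) ^ aa + NN (-(I * w)) ^ aa + NN (I * w) ^ aa) +
        kp * (205 / 2000) * (NN w ^ aa * NN (-w) ^ aa + NN (I * w) ^ aa * NN (-(I * w)) ^ aa) := by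
    rw [mean4]
    have h1 : (Real.exp (pp * (LL w).re) * hh w + Real.exp (pp * (LL (I * w)).re) * hh (I * w) +
        Real.exp (pp * (LL (-w)).re) * hh (-w) +
        Real.exp (pp * (LL (-(I * w))).re) * hh (-(I * w))) / 4 * t =
        (Real.exp (pp * (LL w).re) * hh w * t + Real.exp (pp * (LL (I * w)).re) * hh (I * w) * t +
        Real.exp (pp * (LL (-w)).re) * hh (-w) * t +
        Real.exp (pp * (LL (-(I * w))).re) * hh (-(I * w)) * t) / 4 := by ring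
    rw [h1, t0, t1, t2, t3]
    ring
  have hkey : 10326 / 10000 * hh w' * t ≤
      mean4 (fun v => Real.exp (pp * (LL v).re) * hh v) w * t := by
    rw [mul_assoc, hh', hsum, m02, m13, hN', f02, f13, e0, e1, e2, e3]
    rw [FF] at hF
    linarith
  exact le_of_mul_le_mul_right hkey htpos

private theorem start_ineq_aux {a b s n : ℝ} (ha : 0 < a) (hb : 0 < b) (hs : 0 < s)
    (h : 2 * n = a * b * s) (h1 : 2 ≤ a * b) :
    1 ≤ (a ^ (341 / 2000 : ℝ) * s ^ (-(341 / 4000) : ℝ) +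
      b ^ (341 / 2000 : ℝ) * s ^ (-(341 / 4000) : ℝ)) * n ^ (341 / 4000 : ℝ) := by
  have hn : n = a * b / 2 * s := by linarith
  have h2 : n ^ (341 / 4000 : ℝ) = (a * b / 2) ^ (341 / 4000 : ℝ) * s ^ (341 / 4000 : ℝ) := by
    rw [hn, Real.mul_rpow (by positivity) hs.le]
  have h3 : s ^ (-(341 / 4000) : ℝ) * s ^ (341 / 4000 : ℝ) = 1 := by
    rw [← Real.rpow_add hs, neg_add_cancel, Real.rpow_zero]
  have h4 : 1 ≤ (a * b / 2) ^ (341 / 4000 : ℝ) := Real.one_le_rpow (by linarith) (by norm_num)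
  have ha' := Real.rpow_nonneg ha.le (341 / 2000 : ℝ)
  have hb' := Real.rpow_nonneg hb.le (341 / 2000 : ℝ)
  have h5 : 1 ≤ a ^ (341 / 2000 : ℝ) + b ^ (341 / 2000 : ℝ) := by
    rcases le_total 1 a with h6 | h6
    · have := Real.one_le_rpow h6 (by norm_num : (0 : ℝ) ≤ 341 / 2000)
      linarith
    · have h7 : 1 ≤ b := by nlinarith
      have := Real.one_le_rpow h7 (by norm_num : (0 : ℝ) ≤ 341 / 2000)
      linarith
  have h6 : 1 ≤ (a ^ (341 / 2000 : ℝ) + b ^ (341 / 2000 : ℝ)) * (a * b / 2) ^ (341 / 4000 : ℝ) :=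
    one_le_mul_of_one_le_of_one_le h5 h4
  rw [h2]
  linear_combination h6 + (-(a ^ (341 / 2000 : ℝ) + b ^ (341 / 2000 : ℝ)) *
    (a * b / 2) ^ (341 / 4000 : ℝ)) * h3

/-- `exp_pp_LL` and `NN_prod`: `exp (pp Re LL w) NN (-w')^q = 2^(-q) N₀^(3q) N₂^q`, `q = 341/4000`. The sum
over the four points is `≥ 2^(-q) 2 ((N₀N₂)^(2q) + (N₁N₃)^(2q))` (arithmetic and geometric mean of
`N₀^(3q) N₂^q` and `N₂^(3q) N₀^q`), and `N₀N₂ + N₁N₃ = 8 XX^2 - 4 ≥ 4`, so one of them is `≥ 2 ≥ 1`.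
`hh w' NN (-w')^q = 1 + 0.205 NN (-w')^aa ≤ 1 + 0.205 8^aa`. -/
theorem start_ineq : ∃ c : ℝ, 0 < c ∧ ∀ w w' : ℂ, w' ∈ ball (0 : ℂ) 1 → w' ≠ 0 →
    w ∈ ball (0 : ℂ) 1 → w ≠ 0 → w ^ 4 = Phi w' → XX w' ≤ 2 →
    c * hh w' ≤ mean4 (fun v => Real.exp (pp * (LL v).re)) w := by
  refine ⟨1 / 12, by norm_num, fun w w' hw' h' hw h hP hX => ?_⟩
  have hnw : -w ∈ ball (0 : ℂ) 1 := by
    rw [mem_ball_zero_iff] at hw ⊢
    rwa [norm_neg]
  have hIw : I * w ∈ ball (0 : ℂ) 1 := by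
    rw [mem_ball_zero_iff] at hw ⊢
    rwa [norm_mul, norm_I, one_mul]
  have hnIw : -(I * w) ∈ ball (0 : ℂ) 1 := by
    rw [mem_ball_zero_iff] at hw ⊢
    rwa [norm_neg, norm_mul, norm_I, one_mul]
  have hnw' : -w' ∈ ball (0 : ℂ) 1 := by
    rw [mem_ball_zero_iff] at hw' ⊢
    rwa [norm_neg]
  have n2 : -w ≠ 0 := neg_ne_zero.mpr h
  have n1 : I * w ≠ 0 := mul_ne_zero I_ne_zero h
  have n3 : -(I * w) ≠ 0 := neg_ne_zero.mpr n1
  have n' : -w' ≠ 0 := neg_ne_zero.mpr h'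
  have p0 := NN_pos hw h
  have p2 := NN_pos hnw n2
  have p1 := NN_pos hIw n1
  have p3 := NN_pos hnIw n3
  have p' := NN_pos hnw' n'
  have hprod := NN_prod hw' h' hw h hP
  have i1 : I * (I * w) = -w := by rw [← mul_assoc, I_mul_I, neg_one_mul]
  have i2 : I * -w = -(I * w) := by rw [mul_neg]
  have i3 : I * -(I * w) = w := by rw [mul_neg, i1, neg_neg]
  have e0 := exp_pp_LL hw h
  have e2 := exp_pp_LL hnw n2
  rw [i2, neg_neg] at e2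
  have e1 := exp_pp_LL hIw n1
  rw [i1, neg_neg] at e1
  have e3 := exp_pp_LL hnIw n3
  rw [i3] at e3
  have s1 := NN_eq h
  have s2 := NN_neg h
  have s3 := NN_I h
  have s4 := NN_negI h
  have s5 := re_im_sq h
  have s6 := XX_ge h
  have hsum : 4 ≤ NN w * NN (-w) + NN (I * w) * NN (-(I * w)) := by
    rw [s1, s2, s3, s4]
    nlinarith [mul_self_nonneg (XX w - 1)]
  have hone : 1 ≤ (Real.exp (pp * (LL w).re) + Real.exp (pp * (LL (I * w)).re) +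
      Real.exp (pp * (LL (-w)).re) + Real.exp (pp * (LL (-(I * w))).re)) *
      NN (-w') ^ (341 / 4000 : ℝ) := by
    have hq : 0 < NN (-w') ^ (341 / 4000 : ℝ) := Real.rpow_pos_of_pos p' _
    have q0 := Real.exp_pos (pp * (LL w).re)
    have q1 := Real.exp_pos (pp * (LL (I * w)).re)
    have q2 := Real.exp_pos (pp * (LL (-w)).re)
    have q3 := Real.exp_pos (pp * (LL (-(I * w))).re)
    rcases le_or_gt 2 (NN w * NN (-w)) with h2 | h2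
    · have h3 := start_ineq_aux p0 p2 (mul_pos p1 p3) hprod h2
      rw [← e0, mul_comm (NN (I * w)) (NN (-(I * w))), ← e2] at h3
      refine h3.trans (mul_le_mul_of_nonneg_right ?_ hq.le)
      linarith
    · have h4 : 2 ≤ NN (I * w) * NN (-(I * w)) := by linarith
      have h3 := start_ineq_aux (n := NN (-w')) p1 p3 (mul_pos p0 p2) (by rw [hprod]; ring) h4
      rw [← e3, mul_comm (NN w) (NN (-w)), ← e1] at h3
      refine h3.trans (mul_le_mul_of_nonneg_right ?_ hq.le)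
      linarith
  have hh1 : hh w' * NN (-w') ^ (341 / 4000 : ℝ) = 1 + 205 / 1000 * NN (-w') ^ aa := by
    have h3 : NN (-w') ^ (-(341 / 4000) : ℝ) * NN (-w') ^ (341 / 4000 : ℝ) = 1 := by
      rw [← Real.rpow_add p', neg_add_cancel, Real.rpow_zero]
    rw [hh]
    linear_combination (1 + 205 / 1000 * NN (-w') ^ aa) * h3
  have hN8 : NN (-w') ≤ 8 := by
    have h3 := NN_le n'
    have h4 : XX (-w') = XX w' := by rw [XX, XX, norm_neg]
    rw [h4] at h3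
    linarith
  have ha : NN (-w') ^ aa ≤ 8 := by
    have h3 : NN (-w') ^ aa ≤ 8 ^ aa :=
      Real.rpow_le_rpow p'.le hN8 (by rw [aa]; norm_num)
    have h4 : (8 : ℝ) ^ aa ≤ 8 ^ (1 : ℝ) :=
      Real.rpow_le_rpow_of_exponent_le (by norm_num) (by rw [aa]; norm_num)
    rw [Real.rpow_one] at h4
    exact h3.trans h4
  have hq : 0 < NN (-w') ^ (341 / 4000 : ℝ) := Real.rpow_pos_of_pos p' _
  refine le_of_mul_le_mul_right ?_ hq
  rw [mean4, mul_assoc, hh1]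
  have h9 : (Real.exp (pp * (LL w).re) + Real.exp (pp * (LL (I * w)).re) +
      Real.exp (pp * (LL (-w)).re) + Real.exp (pp * (LL (-(I * w))).re)) / 4 *
      NN (-w') ^ (341 / 4000 : ℝ) = ((Real.exp (pp * (LL w).re) +
      Real.exp (pp * (LL (I * w)).re) + Real.exp (pp * (LL (-w)).re) +
      Real.exp (pp * (LL (-(I * w))).re)) * NN (-w') ^ (341 / 4000 : ℝ)) / 4 := by ring
  change 1 / 12 * (1 + 205 / 1000 * NN (-w') ^ aa) ≤ (Real.exp (pp * (LL w).re) +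
      Real.exp (pp * (LL (I * w)).re) + Real.exp (pp * (LL (-w)).re) +
      Real.exp (pp * (LL (-(I * w))).re)) / 4 * NN (-w') ^ (341 / 4000 : ℝ)
  rw [h9]
  linarith

/-- `NN (-w) ≤ 4 XX w ≤ 8`, `hh w ≥ 8^(-341/4000) ≥ 1/2` -/
theorem hh_lower (hw : w ∈ ball (0 : ℂ) 1) (h : w ≠ 0) (hX : XX w ≤ 2) : 1 / 2 ≤ hh w := by
  have hw2 : -w ∈ ball (0 : ℂ) 1 := by
    rw [mem_ball_zero_iff, norm_neg]
    exact mem_ball_zero_iff.mp hw
  have h2 : -w ≠ 0 := neg_ne_zero.mpr h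
  have hN : 0 < NN (-w) := NN_pos hw2 h2
  have hX2 : XX (-w) = XX w := by
    unfold XX
    rw [norm_neg]
  have hN8 : NN (-w) ≤ 8 := by
    have h3 := NN_le h2
    rw [hX2] at h3
    linarith
  have h4 : (8 : ℝ) ^ (-(341 / 4000) : ℝ) ≤ NN (-w) ^ (-(341 / 4000) : ℝ) :=
    Real.rpow_le_rpow_of_nonpos hN hN8 (by norm_num)
  have h5 : (1 / 2 : ℝ) ≤ (8 : ℝ) ^ (-(341 / 4000) : ℝ) := by
    have h6 : (8 : ℝ) ^ (-(1 / 3) : ℝ) = 1 / 2 := by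
      have h7 : (8 : ℝ) = 2 ^ (3 : ℝ) := by norm_num
      rw [h7, ← Real.rpow_mul (by norm_num)]
      rw [show (3 : ℝ) * (-(1 / 3)) = -1 by norm_num, Real.rpow_neg_one]
      norm_num
    rw [← h6]
    exact Real.rpow_le_rpow_of_exponent_le (by norm_num) (by norm_num)
  have h8 : 0 ≤ NN (-w) ^ aa := Real.rpow_nonneg hN.le _
  have h9 : 0 ≤ NN (-w) ^ (-(341 / 4000) : ℝ) := Real.rpow_nonneg hN.le _
  unfold hh
  have h10 : (0 : ℝ) ≤ 205 / 1000 * NN (-w) ^ aa := by positivity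
  nlinarith [mul_nonneg h9 h10]

theorem hh_pos (hw : w ∈ ball (0 : ℂ) 1) (h : w ≠ 0) : 0 < hh w := by
  have hw2 : -w ∈ ball (0 : ℂ) 1 := by
    rw [mem_ball_zero_iff, norm_neg]
    exact mem_ball_zero_iff.mp hw
  have hN : 0 < NN (-w) := NN_pos hw2 (neg_ne_zero.mpr h)
  unfold hh
  have h8 : 0 < NN (-w) ^ aa := Real.rpow_pos_of_pos hN _
  have h9 : 0 < NN (-w) ^ (-(341 / 4000) : ℝ) := Real.rpow_pos_of_pos hN _
  positivity

theorem hh_cont : ContinuousOn hh (ball 0 1 \ {0}) := by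
  have hc : ContinuousOn (fun w : ℂ => NN (-w)) (ball 0 1 \ {0}) := by
    unfold NN
    refine ContinuousOn.div ?_ ?_ ?_
    · exact (by fun_prop : Continuous fun w : ℂ => ‖1 + -w‖ ^ 2).continuousOn
    · exact (by fun_prop : Continuous fun w : ℂ => ‖-w‖).continuousOn
    · intro w hw
      rw [norm_neg]
      exact norm_ne_zero_iff.mpr hw.2
  have hne : ∀ w ∈ ball (0 : ℂ) 1 \ {0}, NN (-w) ≠ 0 := by
    intro w hw
    have hw2 : -w ∈ ball (0 : ℂ) 1 := by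
      rw [mem_ball_zero_iff, norm_neg]
      exact mem_ball_zero_iff.mp hw.1
    exact (NN_pos hw2 (neg_ne_zero.mpr hw.2)).ne'
  have h1 : ContinuousOn (fun w : ℂ => NN (-w) ^ (-(341 / 4000) : ℝ)) (ball 0 1 \ {0}) :=
    hc.rpow_const fun w hw => Or.inl (hne w hw)
  have h2 : ContinuousOn (fun w : ℂ => NN (-w) ^ aa) (ball 0 1 \ {0}) :=
    hc.rpow_const fun w hw => Or.inl (hne w hw)
  exact h1.mul (continuousOn_const.add (continuousOn_const.mul h2))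

/-- With `ρ = |w|`, `ρ' = |w'|`: `(ρ^2 + ρ^(-2))^2 = ρ^4 + ρ^(-4) + 2 ≤ 4 + |w^2 + w^(-2)|^2`
(as `Re (w^4 / |w|^4) ≥ -1`), and by `Phi_kb`,
`(w^2 + w^(-2))^2 = w^4 + w^(-4) + 2 = Phi w' + 1/Phi w' + 2 = 2 (w' + 1/w')`, of norm
`≤ 2 (ρ' + 1/ρ') = 4 XX w'`; `4 XX w^2 - 2 = ρ^2 + ρ^(-2)`. -/
theorem XX_step (hw' : w' ∈ ball (0 : ℂ) 1) (h' : w' ≠ 0) (hw : w ∈ ball (0 : ℂ) 1) (h : w ≠ 0)
    (hP : w ^ 4 = Phi w') : (4 * XX w ^ 2 - 2) ^ 2 ≤ 4 + 4 * XX w' := by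
  have hρ : 0 < ‖w‖ := norm_pos_iff.mpr h
  have hρ' : 0 < ‖w'‖ := norm_pos_iff.mpr h'
  have hu : (w ^ 2 : ℂ) ≠ 0 := pow_ne_zero 2 h
  -- the square of `w^2 + w^(-2)`
  have h1 : (w ^ 2 + (w ^ 2)⁻¹) ^ 2 = 2 * (w' + w'⁻¹) := by
    have h2 := Phi_kb hw'
    rw [← hP] at h2
    field_simp
    linear_combination (-1 : ℂ) * h2
  have h3 : ‖w ^ 2 + (w ^ 2)⁻¹‖ ^ 2 ≤ 4 * XX w' := by
    rw [← norm_pow, h1, norm_mul]
    have h4 := norm_add_le w' w'⁻¹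
    rw [norm_inv] at h4
    have h5 : ‖(2 : ℂ)‖ = 2 := by simp
    unfold XX
    rw [h5, one_div]
    linarith
  -- the parallelogram law
  have h6 := parallelogram_law_with_norm ℝ (w ^ 2) (w ^ 2)⁻¹
  have h7 : ‖w ^ 2 - (w ^ 2)⁻¹‖ ≤ ‖w‖ ^ 2 + (‖w‖ ^ 2)⁻¹ := by
    refine (norm_sub_le _ _).trans (le_of_eq ?_)
    rw [norm_inv, norm_pow]
  rw [norm_inv, norm_pow] at h6
  have h8 : ‖w ^ 2 - (w ^ 2)⁻¹‖ * ‖w ^ 2 - (w ^ 2)⁻¹‖ ≤
      (‖w‖ ^ 2 + (‖w‖ ^ 2)⁻¹) * (‖w‖ ^ 2 + (‖w‖ ^ 2)⁻¹) :=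
    mul_self_le_mul_self (norm_nonneg _) h7
  have h9 : ‖w‖ ^ 2 * (‖w‖ ^ 2)⁻¹ = 1 := mul_inv_cancel₀ (pow_pos hρ 2).ne'
  have h10 : 4 * XX w ^ 2 - 2 = ‖w‖ ^ 2 + (‖w‖ ^ 2)⁻¹ := by
    unfold XX
    field_simp
    ring
  rw [h10]
  nlinarith [h3, h6, h8, h9]

/-- For `XX w' ≤ 1.2`: `(4 XX w^2 - 2)^2 ≤ 8.8` gives `XX w ≤ 1.115`; for `X' = XX w' > 1.2`:
`(4 (0.93 X')^2 - 2)^2 ≥ 4 + 4 X'`. -/
theorem XX_contr (hw' : w' ∈ ball (0 : ℂ) 1) (h' : w' ≠ 0) (hw : w ∈ ball (0 : ℂ) 1) (h : w ≠ 0)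
    (hP : w ^ 4 = Phi w') : XX w ≤ max (223 / 200) (93 / 100 * XX w') := by
  have h1 := XX_step hw' h' hw h hP
  have h2 := XX_ge h
  rcases le_or_gt (XX w') (6 / 5) with h3 | h3
  · refine le_max_of_le_left ?_
    by_contra hc
    push Not at hc
    have h4 : (29729 / 10000 : ℝ) < 4 * XX w ^ 2 - 2 := by nlinarith
    nlinarith
  · refine le_max_of_le_right ?_
    by_contra hc
    push Not at hc
    have h4 : 4 * (93 / 100 * XX w') ^ 2 - 2 < 4 * XX w ^ 2 - 2 := by nlinarith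
    have h5 : (2 : ℝ) < 4 * (93 / 100 * XX w') ^ 2 - 2 := by nlinarith
    have h6 : (4 * (93 / 100 * XX w') ^ 2 - 2) ^ 2 < (4 * XX w ^ 2 - 2) ^ 2 := by nlinarith
    have h7 : (4 * (93 / 100 * XX w') ^ 2 - 2) ^ 2 < 4 + 4 * XX w' := by linarith
    set t := XX w' with ht
    have h8 : 0 ≤ (4 * (93 / 100 * t) ^ 2 - 2) ^ 2 - (4 + 4 * t) := by
      have e : (4 * (93 / 100 * t) ^ 2 - 2) ^ 2 - (4 + 4 * t) =
          t * ((29929 : ℝ) / 2500 * t ^ 3 - 34596 / 2500 * t - 4) +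
            (4 * (93 / 100) ^ 2 * (4 * (93 / 100) ^ 2) - 29929 / 2500) * t ^ 4 := by ring
      rw [e]
      have h9 : (36 / 25 : ℝ) ≤ t ^ 2 := by nlinarith
      have h10 : (216 / 125 : ℝ) ≤ t ^ 3 := by nlinarith
      have h11 : 0 ≤ (29929 : ℝ) / 2500 * t ^ 3 - 34596 / 2500 * t - 4 := by nlinarith
      have h12 : (-3 / 1000 : ℝ) ≤ 4 * (93 / 100) ^ 2 * (4 * (93 / 100) ^ 2) - 29929 / 2500 := by
        norm_num
      nlinarith
    linarith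

end Pool.Agent.Helper42.KN
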