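import Pool.Agent.Helper42.LB.Ell
import Pool.Agent.Helper42.LB.Fin2
import Pool.Agent.Helper42.LB.Lim

/-!
# Project KN (MP_433f59_an): the Koebe function is not extremal for `lambda ≤ 0.341`

`f` is the univalent function with `f z ^ 4 = Phi (f (z ^ 4))`. With `J w = w + 1/w` this is
`2 J (f (z ^ 4)) = (J (f z) ^ 2 - 2) ^ 2`. The numbers `NN w = |J w + 2|`, for the four points `w`, `I w`,
`-w`, `-I w`, satisfy `NN (-w') = (product of the four) / 2` if `w ^ 4 = Phi w'`, and with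
`hh w = NN (-w)^(-p/4) (1 + 0.205 NN (-w)^(3p/4))`, `p = 0.341`, the mean of
`exp (p Re LL w) hh w` over the four points is `≥ 1.0326 hh w'`; this reduces to an inequality `FF ≥ 0`
for real numbers, which is increasing in `X` and was checked for `X = 1` (`Tab`).
-/

set_option autoImplicit false

namespace Pool.Agent.Helper42.KN

open Complex Metric Pool.Agent.Helper42.LB

/-- the exponent `p` -/
noncomputable def pp : ℝ := 341 / 1000
/-- `3 p / 4` -/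
noncomputable def aa : ℝ := 1023 / 4000
/-- `2^(-p/4)` -/
noncomputable def kp : ℝ := 2 ^ (-(341 / 4000) : ℝ)

/-- the function of three real variables -/
noncomputable def FF (X C S : ℝ) : ℝ :=
  kp / 4 * ((2 * X + 2 * C) ^ aa + (2 * X - 2 * C) ^ aa + (2 * X + 2 * S) ^ aa + (2 * X - 2 * S) ^ aa) +
    kp * (205 / 2000) * ((4 * X ^ 2 - 4 * C ^ 2) ^ aa + (4 * X ^ 2 - 4 * S ^ 2) ^ aa) -
    10326 / 10000 * (1 + 205 / 1000 * ((4 * X ^ 2 - 4 * C ^ 2) * (4 * X ^ 2 - 4 * S ^ 2) / 2) ^ aa)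

/-- `|J w + 2|`, `J w = w + 1/w` -/
noncomputable def NN (w : ℂ) : ℝ := ‖1 + w‖ ^ 2 / ‖w‖

/-- `(|w| + 1/|w|) / 2` -/
noncomputable def XX (w : ℂ) : ℝ := (‖w‖ + 1 / ‖w‖) / 2

/-- the test function -/
noncomputable def hh (w : ℂ) : ℝ := NN (-w) ^ (-(341 / 4000) : ℝ) * (1 + 205 / 1000 * NN (-w) ^ aa)

/-- mean over the four points `w`, `I w`, `-w`, `-I w` -/
noncomputable def mean4 (u : ℂ → ℝ) (w : ℂ) : ℝ := (u w + u (I * w) + u (-w) + u (-(I * w))) / 4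

/-- `B` solves the functional equation in the open disc -/
structure Sl (B : ℂ → ℂ) : Prop where
  diff : DifferentiableOn ℂ B (ball 0 1)
  bd : ∃ C : ℝ, 0 < C ∧ ∀ z ∈ ball (0 : ℂ) 1, ‖B z‖ ≤ C
  le : ∀ z ∈ ball (0 : ℂ) 1, ‖fn B z‖ ≤ ‖z‖
  eq : ∀ z ∈ ball (0 : ℂ) 1, 4 * B z = B (z ^ 4) + AA (fn B (z ^ 4))

end Pool.Agent.Helper42.KN
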