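import Pool.Agent.Helper42.KN.Defs

/-!
# KN-D: the solution of the functional equation with the parameter `1`
-/

set_option autoImplicit false

namespace Pool.Agent.Helper42.KN

open Complex Metric Set Pool.Agent.Helper42.LB

/-- Schwarz lemma for `ff 1 n` (`ff_lt`, `ff_diff`, `ff 1 n 0 = 0`) -/
theorem ff_le (n : ℕ) {z : ℂ} (hz : z ∈ ball (0 : ℂ) 1) : ‖ff 1 n z‖ ≤ ‖z‖ := by
  refine norm_le_norm_of_mapsTo_ball (ff_diff one_pos le_rfl n)
    (fun w hw => ball_subset_closedBall (ff_lt one_pos le_rfl n (ball_subset_closedBall hw))) ?_ ?_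
  · change (0 : ℂ) * exp (fB 1 n 0) = 0
    rw [zero_mul]
  · rwa [mem_ball, dist_zero_right] at hz

/-- `AA` has a bounded derivative on the closed disc of radius `r < 1` (compactness, convexity:
`Convex.norm_image_sub_le_of_norm_deriv_le`) -/
theorem AA_lip {r : ℝ} (h1 : r < 1) : ∃ K : ℝ, 0 ≤ K ∧ ∀ a ∈ closedBall (0 : ℂ) r,
    ∀ b ∈ closedBall (0 : ℂ) r, ‖AA a - AA b‖ ≤ K * ‖a - b‖ := by
  have hsub : closedBall (0 : ℂ) r ⊆ ball 0 1 := closedBall_subset_ball h1
  have hA : AnalyticOnNhd ℂ AA (ball 0 1) := diff_AA.analyticOnNhd isOpen_ball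
  have hc : ContinuousOn (deriv AA) (closedBall (0 : ℂ) r) :=
    (hA.deriv.continuousOn).mono hsub
  obtain ⟨K, hK⟩ := (isCompact_closedBall (0 : ℂ) r).exists_bound_of_continuousOn hc
  refine ⟨max K 0, le_max_right _ _, fun a ha b hb => ?_⟩
  exact Convex.norm_image_sub_le_of_norm_deriv_le (s := closedBall (0 : ℂ) r)
    (fun x hx => (diff_AA x (hsub hx)).differentiableAt (isOpen_ball.mem_nhds (hsub hx)))
    (fun x hx => (hK x hx).trans (le_max_left _ _)) (convex_closedBall 0 r) hb ha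

theorem exp_lip {C : ℝ} {a b : ℂ} (ha : ‖a‖ ≤ C) (hb : ‖b‖ ≤ C) :
    ‖exp a - exp b‖ ≤ Real.exp C * ‖a - b‖ := by
  refine Convex.norm_image_sub_le_of_norm_deriv_le (s := closedBall (0 : ℂ) C) (f := exp)
    (fun x _ => differentiable_exp x) (fun x hx => ?_) (convex_closedBall 0 C)
    (mem_closedBall_zero_iff.2 hb) (mem_closedBall_zero_iff.2 ha)
  rw [Complex.deriv_exp, norm_exp]
  exact Real.exp_le_exp.2 ((re_le_norm x).trans (mem_closedBall_zero_iff.1 hx))

/-- `4 (fB (n+2) z - fB (n+1) z) = (fB (n+1) - fB n) (z^4) + AA (ff (n+1) (z^4)) - AA (ff n (z^4))`, and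
`‖ff (n+1) u - ff n u‖ = ‖u‖ ‖exp .. - exp ..‖ ≤ ‖u‖ e^C ‖fB (n+1) u - fB n u‖`. With the Lipschitz
constant `K` of `AA` on the disc of radius `r` (`ff_le`) and `K' = K e^C`:
`‖fB (n+2) z - fB (n+1) z‖ ≤ 1/4 (1 + K' ‖z‖^4) ‖fB (n+1) (z^4) - fB n (z^4)‖`. With `c = K' / (1 - r)`:
`(1 + K' t^4) exp (c t^4) ≤ exp (c t)` for `0 ≤ t ≤ r` (`K' t^4 + c t^4 ≤ c t`, as
`K' t^3 ≤ c (1 - t^3)`; `1 + x ≤ exp x`). Induction: `‖fB (n+1) z - fB n z‖ ≤ 2 C exp (c ‖z‖) 4^(-n)`
for all `‖z‖ ≤ r`. -/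
theorem fB_contr {r : ℝ} (h0 : 0 ≤ r) (h1 : r < 1) : ∃ D : ℝ, 0 ≤ D ∧ ∀ (n : ℕ),
    ∀ z ∈ closedBall (0 : ℂ) r, ‖fB 1 (n + 1) z - fB 1 n z‖ ≤ D * (1 / 4) ^ n := by
  obtain ⟨C, hC, hCn⟩ := fB_bound (τ := 1) one_pos le_rfl
  obtain ⟨K, hK, hKl⟩ := AA_lip h1
  set K' : ℝ := K * Real.exp C with hK'
  have hK'0 : 0 ≤ K' := mul_nonneg hK (Real.exp_pos _).le
  set c : ℝ := K' / (1 - r) with hc
  have hr1 : 0 < 1 - r := by linarith
  have hc0 : 0 ≤ c := div_nonneg hK'0 hr1.le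
  have hcr : c * (1 - r) = K' := by rw [hc]; field_simp
  have key : ∀ (n : ℕ) (z : ℂ), ‖z‖ ≤ r →
      ‖fB 1 (n + 1) z - fB 1 n z‖ ≤ 2 * C * Real.exp (c * ‖z‖) * (1 / 4) ^ n := by
    intro n
    induction n with
    | zero =>
      intro z hz
      have hz1 : z ∈ closedBall (0 : ℂ) 1 := by
        rw [mem_closedBall_zero_iff]; linarith
      have h2 : (1 : ℝ) ≤ Real.exp (c * ‖z‖) := Real.one_le_exp (by positivity)
      calc ‖fB 1 (0 + 1) z - fB 1 0 z‖ ≤ ‖fB 1 (0 + 1) z‖ + ‖fB 1 0 z‖ := norm_sub_le _ _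
        _ ≤ C + C := add_le_add (hCn _ z hz1) (hCn _ z hz1)
        _ = 2 * C * 1 := by ring
        _ ≤ 2 * C * Real.exp (c * ‖z‖) := mul_le_mul_of_nonneg_left h2 (by positivity)
        _ = 2 * C * Real.exp (c * ‖z‖) * (1 / 4) ^ 0 := by rw [pow_zero, mul_one]
    | succ n ih =>
      intro z hz
      set t : ℝ := ‖z‖ with ht
      have ht0 : 0 ≤ t := norm_nonneg z
      have ht1 : t ≤ 1 := by linarith
      have ht3 : t ^ 3 ≤ t := by
        calc t ^ 3 ≤ t ^ 1 := pow_le_pow_of_le_one ht0 ht1 (by norm_num)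
          _ = t := pow_one t
      have ht4 : t ^ 4 ≤ t := by
        calc t ^ 4 ≤ t ^ 1 := pow_le_pow_of_le_one ht0 ht1 (by norm_num)
          _ = t := pow_one t
      have hu : ‖z ^ 4‖ = t ^ 4 := norm_pow z 4
      have hur : ‖z ^ 4‖ ≤ r := by rw [hu]; linarith
      have hu1 : z ^ 4 ∈ ball (0 : ℂ) 1 := by rw [mem_ball_zero_iff]; linarith
      have hu1' : z ^ 4 ∈ closedBall (0 : ℂ) 1 := ball_subset_closedBall hu1
      have hf : ∀ m, ff 1 m (z ^ 4) ∈ closedBall (0 : ℂ) r := fun m => by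
        rw [mem_closedBall_zero_iff]
        exact (ff_le m hu1).trans hur
      have hδ := ih (z ^ 4) hur
      rw [hu] at hδ
      set δ : ℝ := ‖fB 1 (n + 1) (z ^ 4) - fB 1 n (z ^ 4)‖ with hδd
      have hA : ‖AA (ff 1 (n + 1) (z ^ 4)) - AA (ff 1 n (z ^ 4))‖ ≤ K' * t ^ 4 * δ := by
        have h3 := hKl _ (hf (n + 1)) _ (hf n)
        have h4 : ff 1 (n + 1) (z ^ 4) - ff 1 n (z ^ 4) =
            z ^ 4 * (exp (fB 1 (n + 1) (z ^ 4)) - exp (fB 1 n (z ^ 4))) := by
          unfold ff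
          ring
        have h5 := exp_lip (hCn (n + 1) _ hu1') (hCn n _ hu1')
        rw [h4, norm_mul, hu] at h3
        calc _ ≤ K * (t ^ 4 * ‖exp (fB 1 (n + 1) (z ^ 4)) - exp (fB 1 n (z ^ 4))‖) := h3
          _ ≤ K * (t ^ 4 * (Real.exp C * δ)) := by
            apply mul_le_mul_of_nonneg_left _ hK
            exact mul_le_mul_of_nonneg_left h5 (by positivity)
          _ = K' * t ^ 4 * δ := by rw [hK']; ring
      have h6 : fB 1 (n + 1 + 1) z - fB 1 (n + 1) z =
          ((fB 1 (n + 1) (z ^ 4) - fB 1 n (z ^ 4)) +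
            (AA (ff 1 (n + 1) (z ^ 4)) - AA (ff 1 n (z ^ 4)))) / 4 := by
        have e1 : fB 1 (n + 1 + 1) z = (fB 1 (n + 1) (z ^ 4) + (Real.log 1 : ℝ) +
          AA (ff 1 (n + 1) (z ^ 4))) / 4 := rfl
        have e2 : fB 1 (n + 1) z = (fB 1 n (z ^ 4) + (Real.log 1 : ℝ) +
          AA (ff 1 n (z ^ 4))) / 4 := rfl
        rw [e1, e2]
        ring
      have h7 : ‖fB 1 (n + 1 + 1) z - fB 1 (n + 1) z‖ ≤ (1 + K' * t ^ 4) * δ / 4 := by
        rw [h6, norm_div, show ‖(4 : ℂ)‖ = 4 by simp]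
        apply div_le_div_of_nonneg_right _ (by norm_num)
        refine (norm_add_le _ _).trans ?_
        linarith
      have h8 : (1 + K' * t ^ 4) * Real.exp (c * t ^ 4) ≤ Real.exp (c * t) := by
        have h9 : 1 + K' * t ^ 4 ≤ Real.exp (K' * t ^ 4) := by
          linarith [Real.add_one_le_exp (K' * t ^ 4)]
        calc (1 + K' * t ^ 4) * Real.exp (c * t ^ 4) ≤
            Real.exp (K' * t ^ 4) * Real.exp (c * t ^ 4) :=
              mul_le_mul_of_nonneg_right h9 (Real.exp_pos _).le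
          _ = Real.exp (K' * t ^ 4 + c * t ^ 4) := (Real.exp_add _ _).symm
          _ ≤ Real.exp (c * t) := by
            apply Real.exp_le_exp.2
            have h10 : c * (1 - r) ≤ c * (1 - t ^ 3) :=
              mul_le_mul_of_nonneg_left (by linarith) hc0
            have h11 : K' * t ^ 3 ≤ K' * 1 :=
              mul_le_mul_of_nonneg_left (by linarith) hK'0
            have h12 : K' * t ^ 3 ≤ c * (1 - t ^ 3) := by linarith
            have h13 := mul_le_mul_of_nonneg_left h12 ht0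
            nlinarith
      have h14 : 0 ≤ 1 + K' * t ^ 4 := by positivity
      calc ‖fB 1 (n + 1 + 1) z - fB 1 (n + 1) z‖ ≤ (1 + K' * t ^ 4) * δ / 4 := h7
        _ ≤ (1 + K' * t ^ 4) * (2 * C * Real.exp (c * t ^ 4) * (1 / 4) ^ n) / 4 := by
          apply div_le_div_of_nonneg_right _ (by norm_num)
          exact mul_le_mul_of_nonneg_left hδ h14
        _ = 2 * C * ((1 + K' * t ^ 4) * Real.exp (c * t ^ 4)) * (1 / 4) ^ (n + 1) := by
          rw [pow_succ]; ring
        _ ≤ 2 * C * Real.exp (c * t) * (1 / 4) ^ (n + 1) := by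
          apply mul_le_mul_of_nonneg_right _ (by positivity)
          exact mul_le_mul_of_nonneg_left h8 (by positivity)
  refine ⟨2 * C * Real.exp (c * r), by positivity, fun n z hz => ?_⟩
  rw [mem_closedBall_zero_iff] at hz
  refine (key n z hz).trans ?_
  apply mul_le_mul_of_nonneg_right _ (by positivity)
  apply mul_le_mul_of_nonneg_left _ (by positivity)
  exact Real.exp_le_exp.2 (mul_le_mul_of_nonneg_left hz hc0)

/-- `fB 1 n` converges locally uniformly in the open disc; pass to the limit (`fB_bound`, `ff_le`,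
definition of `fB`, `Real.log 1 = 0`, continuity of `AA` at `fn B (z^4)`). -/
theorem exists_sl : ∃ B, Sl B := by
  obtain ⟨C, hC, hCb⟩ := fB_bound one_pos le_rfl
  have hsub : ∀ z ∈ ball (0 : ℂ) 1, z ∈ closedBall (0 : ℂ) 1 := fun z hz =>
    ball_subset_closedBall hz
  have hex : ∀ z : ℂ, ∃ b : ℂ, z ∈ ball (0 : ℂ) 1 →
      Filter.Tendsto (fun n => fB 1 n z) Filter.atTop (nhds b) := by
    intro z
    by_cases hz : z ∈ ball (0 : ℂ) 1
    · obtain ⟨D, hD0, hD⟩ := fB_contr (norm_nonneg z) (mem_ball_zero_iff.1 hz)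
      obtain ⟨b, hb'⟩ := cauchySeq_tendsto_of_complete
        (cauchySeq_of_le_geometric (1 / 4) D (by norm_num) (f := fun n => fB 1 n z) (fun n => by
          rw [dist_comm, dist_eq_norm]
          exact hD n z (mem_closedBall_zero_iff.2 le_rfl)))
      exact ⟨b, fun _ => hb'⟩
    · exact ⟨0, fun h => absurd h hz⟩
  choose B hB using hex
  have hff : ∀ z ∈ ball (0 : ℂ) 1,
      Filter.Tendsto (fun n => ff 1 n z) Filter.atTop (nhds (fn B z)) := by
    intro z hz
    have h2 : Filter.Tendsto (fun n => exp (fB 1 n z)) Filter.atTop (nhds (exp (B z))) :=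
      (continuous_exp.tendsto (B z)).comp (hB z hz)
    exact h2.const_mul z
  have hle : ∀ z ∈ ball (0 : ℂ) 1, ‖fn B z‖ ≤ ‖z‖ := fun z hz =>
    le_of_tendsto' (hff z hz).norm fun n => ff_le n hz
  refine ⟨B, ?_, ⟨C, hC, ?_⟩, hle, ?_⟩
  · intro z hz
    have hz1 : ‖z‖ < 1 := mem_ball_zero_iff.1 hz
    set r : ℝ := (‖z‖ + 1) / 2 with hr
    have hr0 : 0 ≤ r := by positivity
    have hr1 : r < 1 := by rw [hr]; linarith
    obtain ⟨D, hD0, hD⟩ := fB_contr hr0 hr1
    have hin : closedBall (0 : ℂ) r ⊆ ball (0 : ℂ) 1 := closedBall_subset_ball hr1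
    have hdist : ∀ w ∈ closedBall (0 : ℂ) r, ∀ n, dist (fB 1 n w) (B w) ≤
        D * (1 / 4) ^ n / (1 - 1 / 4) := fun w hw n =>
      dist_le_of_le_geometric_of_tendsto (1 / 4) D (by norm_num) (f := fun n => fB 1 n w)
        (fun n => by
          rw [dist_comm, dist_eq_norm]
          exact hD n w hw) (hB w (hin hw)) n
    have hlim : Filter.Tendsto (fun n : ℕ => D * (1 / 4 : ℝ) ^ n / (1 - 1 / 4))
        Filter.atTop (nhds 0) := by
      have h2 := ((tendsto_pow_atTop_nhds_zero_of_lt_one (r := (1 / 4 : ℝ)) (by norm_num)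
        (by norm_num)).const_mul D).div_const (1 - 1 / 4)
      simpa using h2
    have hu : TendstoUniformlyOn (fun n z => fB 1 n z) B Filter.atTop (closedBall (0 : ℂ) r) := by
      rw [Metric.tendstoUniformlyOn_iff]
      intro ε hε
      filter_upwards [hlim.eventually (gt_mem_nhds hε)] with n hn w hw
      rw [dist_comm]
      exact lt_of_le_of_lt (hdist w hw n) hn
    have hdf : DifferentiableOn ℂ B (ball 0 r) :=
      (hu.mono ball_subset_closedBall).tendstoLocallyUniformlyOn.differentiableOn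
        (Filter.Eventually.of_forall fun n => (fB_diff one_pos le_rfl n).mono
          (ball_subset_ball hr1.le)) isOpen_ball
    have hzr : z ∈ ball (0 : ℂ) r := by
      rw [mem_ball_zero_iff, hr]
      linarith
    exact (hdf.differentiableAt (isOpen_ball.mem_nhds hzr)).differentiableWithinAt
  · intro z hz
    exact le_of_tendsto' (hB z hz).norm fun n => hCb n z (hsub z hz)
  · intro z hz
    have hz4 : z ^ 4 ∈ ball (0 : ℂ) 1 := by
      rw [mem_ball_zero_iff, norm_pow]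
      exact pow_lt_one₀ (norm_nonneg z) (mem_ball_zero_iff.1 hz) (by norm_num)
    have hmem : fn B (z ^ 4) ∈ ball (0 : ℂ) 1 := by
      rw [mem_ball_zero_iff]
      exact lt_of_le_of_lt (hle _ hz4) (mem_ball_zero_iff.1 hz4)
    have hA : Filter.Tendsto (fun n => AA (ff 1 n (z ^ 4))) Filter.atTop
        (nhds (AA (fn B (z ^ 4)))) :=
      ((diff_AA.differentiableAt (isOpen_ball.mem_nhds hmem)).continuousAt.tendsto).comp
        (hff _ hz4)
    have h1 : Filter.Tendsto (fun n => 4 * fB 1 (n + 1) z) Filter.atTop (nhds (4 * B z)) :=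
      ((hB z hz).comp (Filter.tendsto_add_atTop_nat 1)).const_mul 4
    have h2 : Filter.Tendsto (fun n => fB 1 n (z ^ 4) + AA (ff 1 n (z ^ 4))) Filter.atTop
        (nhds (B (z ^ 4) + AA (fn B (z ^ 4)))) := (hB _ hz4).add hA
    refine tendsto_nhds_unique h1 (h2.congr fun n => ?_)
    show fB 1 n (z ^ 4) + AA (z ^ 4 * exp (fB 1 n (z ^ 4))) =
      4 * ((fB 1 n (z ^ 4) + (Real.log 1 : ℝ) + AA (z ^ 4 * exp (fB 1 n (z ^ 4)))) / 4)
    rw [Real.log_one, Complex.ofReal_zero]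
    ring

end Pool.Agent.Helper42.KN
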