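import Pool.Agent.Helper42.KN.Grow
import Pool.Agent.Helper21.KP.Main

/-!
# KN-H: all exponents `≤ 0.341`
-/

set_option autoImplicit false

namespace Pool.Agent.Helper42.KN

open Complex Metric Set Pool.Agent.Helper42.LB

private lemma h1_mem {g : ℝ → ℝ} (hg : Continuous g) {a : ℝ} (ha : 0 ≤ a)
    (q : ENNReal) : MeasureTheory.MemLp (fun θ => g θ ^ a) q
      (MeasureTheory.volume.restrict (Set.Ioc 0 (2 * Real.pi))) := by
  have hc : Continuous fun θ => g θ ^ a := hg.rpow_const fun _ => Or.inr ha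
  obtain ⟨C, hC⟩ := (isCompact_Icc (a := (0 : ℝ)) (b := 2 * Real.pi)).exists_bound_of_continuousOn
    hc.continuousOn
  refine MeasureTheory.MemLp.of_bound hc.aestronglyMeasurable C ?_
  refine (MeasureTheory.ae_restrict_mem measurableSet_Ioc).mono fun θ hθ => hC θ ?_
  exact ⟨hθ.1.le, hθ.2⟩

/-- Hölder's inequality with `p₀ = (1 - t) p + t p₁` (`MeasureTheory.integral_mul_le_Lp_mul_Lq_of_nonneg`
with the exponents `1/(1-t)`, `1/t`, the functions `g^((1-t) p)`, `g^(t p₁)` on `[0, 2π]`). -/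
theorem hoelder {g : ℝ → ℝ} (hg : Continuous g) (h0 : ∀ θ, 0 ≤ g θ) {p p₀ p₁ t : ℝ} (hp : 0 < p)
    (hp1 : 0 < p₁) (ht : 0 < t) (ht1 : t < 1) (h : p₀ = (1 - t) * p + t * p₁) :
    ∫ θ in (0 : ℝ)..2 * Real.pi, g θ ^ p₀ ≤
      (∫ θ in (0 : ℝ)..2 * Real.pi, g θ ^ p) ^ (1 - t) *
        (∫ θ in (0 : ℝ)..2 * Real.pi, g θ ^ p₁) ^ t := by
  have hpi : (0 : ℝ) ≤ 2 * Real.pi := by positivity
  have h1t : 0 < 1 - t := by linarith
  have hconj : (1 - t)⁻¹.HolderConjugate t⁻¹ := by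
    rw [Real.holderConjugate_iff]
    refine ⟨?_, by rw [inv_inv, inv_inv]; ring⟩
    exact (one_lt_inv₀ h1t).2 (by linarith)
  rw [intervalIntegral.integral_of_le hpi, intervalIntegral.integral_of_le hpi,
    intervalIntegral.integral_of_le hpi]
  have hH := MeasureTheory.integral_mul_le_Lp_mul_Lq_of_nonneg hconj
    (μ := MeasureTheory.volume.restrict (Set.Ioc 0 (2 * Real.pi)))
    (f := fun θ => g θ ^ ((1 - t) * p)) (g := fun θ => g θ ^ (t * p₁))
    (Filter.Eventually.of_forall fun θ => Real.rpow_nonneg (h0 θ) _)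
    (Filter.Eventually.of_forall fun θ => Real.rpow_nonneg (h0 θ) _)
    (h1_mem hg (by positivity) _) (h1_mem hg (by positivity) _)
  have e1 : ∀ θ, g θ ^ ((1 - t) * p) * g θ ^ (t * p₁) = g θ ^ p₀ := fun θ => by
    rw [h, Real.rpow_add_of_nonneg (h0 θ) (by positivity) (by positivity)]
  have e2 : ∀ θ, (g θ ^ ((1 - t) * p)) ^ (1 - t)⁻¹ = g θ ^ p := fun θ => by
    rw [← Real.rpow_mul (h0 θ)]
    congr 1
    field_simp
  have e3 : ∀ θ, (g θ ^ (t * p₁)) ^ t⁻¹ = g θ ^ p₁ := fun θ => by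
    rw [← Real.rpow_mul (h0 θ)]
    congr 1
    field_simp
  simp only [e1, e2, e3, one_div, inv_inv] at hH
  exact hH

private theorem main_fin_pow {c b p : ℝ} (hc : 0 < c) (hp : 0 < p) {I : ℝ → ℝ}
    (h : ∀ r : ℝ, 0 < r → r < 1 → c * (1 - r) ^ (-b) ≤ I r) :
    ∀ r : ℝ, 0 < r → r < 1 → ((2 * Real.pi)⁻¹ * c) ^ (1 / p) * (1 - r) ^ (-(b / p)) ≤
      ((2 * Real.pi)⁻¹ * I r) ^ (1 / p) := by
  intro r hr hr1
  have h1 : 0 < 1 - r := by linarith
  have hpi : 0 < (2 * Real.pi)⁻¹ := by positivity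
  have e : ((2 * Real.pi)⁻¹ * c) ^ (1 / p) * (1 - r) ^ (-(b / p)) =
      ((2 * Real.pi)⁻¹ * (c * (1 - r) ^ (-b))) ^ (1 / p) := by
    rw [← mul_assoc, Real.mul_rpow (x := (2 * Real.pi)⁻¹ * c) (y := (1 - r) ^ (-b))
      (by positivity) (by positivity), ← Real.rpow_mul h1.le]
    congr 2
    field_simp
  rw [e]
  exact Real.rpow_le_rpow (by positivity) (mul_le_mul_of_nonneg_left (h r hr hr1) hpi.le)
    (by positivity)

private theorem main_fin_cont {f : ℂ → ℂ} (hd : DifferentiableOn ℂ f (ball 0 1)) {r : ℝ}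
    (h0 : 0 < r) (h1 : r < 1) : Continuous fun θ : ℝ => ‖deriv f (r * exp (θ * I))‖ := by
  have hc : ContinuousOn (deriv f) (ball 0 1) := (hd.deriv isOpen_ball).continuousOn
  have hm : ∀ θ : ℝ, (r : ℂ) * exp (θ * I) ∈ ball (0 : ℂ) 1 := by
    intro θ
    rw [mem_ball_zero_iff, norm_mul, norm_exp_ofReal_mul_I, mul_one, norm_real,
      Real.norm_of_nonneg h0.le]
    exact h1
  refine Continuous.norm ?_
  exact hc.comp_continuous (by fun_prop) hm

private theorem main_fin_up {f : ℂ → ℂ} (hd : DifferentiableOn ℂ f (ball 0 1))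
    (hi : InjOn f (ball 0 1)) : ∃ D : ℝ, 0 < D ∧ ∀ r : ℝ, 0 < r → r < 1 →
      ∫ θ in (0 : ℝ)..2 * Real.pi, ‖deriv f (r * exp (θ * I))‖ ^ (2 / 5 : ℝ) ≤
        D * (1 - r) ^ (-(1 / 5) : ℝ) := by
  obtain ⟨B, hB, H⟩ := Pool.Agent.Helper21.KP.km_le (lam := 2 / 5) (by norm_num) hd hi
  refine ⟨2 * Real.pi * B ^ (2 / 5 : ℝ), by positivity, fun r hr hr1 => ?_⟩
  have h1 : 0 < 1 - r := by linarith
  have h2 := H r hr hr1
  set J := ∫ θ in (0 : ℝ)..2 * Real.pi, ‖deriv f (r * exp (θ * I))‖ ^ (2 / 5 : ℝ) with hJ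
  have hJ0 : 0 ≤ J := by
    rw [hJ]
    exact intervalIntegral.integral_nonneg (by positivity) fun θ _ => by positivity
  have h3 : (((2 * Real.pi)⁻¹ * J) ^ (1 / (2 / 5) : ℝ)) ^ (2 / 5 : ℝ) ≤
      (B * (1 - r) ^ (-(3 - 1 / (2 / 5)) : ℝ)) ^ (2 / 5 : ℝ) :=
    Real.rpow_le_rpow (by positivity) h2 (by norm_num)
  rw [← Real.rpow_mul (by positivity), Real.mul_rpow hB.le (by positivity),
    ← Real.rpow_mul h1.le] at h3
  norm_num at h3
  rw [show (-(1 / 5) : ℝ) = -(1 / 5) from rfl]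
  have h4 : J = 2 * Real.pi * (Real.pi⁻¹ * (1 / 2) * J) := by
    field_simp
  rw [h4, mul_assoc (2 * Real.pi)]
  exact mul_le_mul_of_nonneg_left h3 (by positivity)

/-- Let `p < p₀ = 0.341`, `p₁ = 2/5`, `t = (p₀ - p)/(p₁ - p)`. By `Pool.Agent.Helper21.KP.km_le` (with
`lam = 2/5`) the integral of `|f'|^(2/5)` is `≤ B (1-r)^(-1/5)`, and by `hoelder`
`∫ |f'|^p ≥ (∫ |f'|^p₀)^(1/(1-t)) (∫ |f'|^p₁)^(-t/(1-t)) ≥ c (1-r)^(-e')` with
`e' = (0.0231 - t/5)/(1-t) > (3 p₀ - 1 - t (3 p₁ - 1))/(1-t) = 3 p - 1`; then the power `1/p`. For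
`p = p₀` directly. -/
theorem main_fin : ∃ f : ℂ → ℂ, DifferentiableOn ℂ f (ball 0 1) ∧ InjOn f (ball 0 1) ∧
    ∀ p : ℝ, 0 < p → p ≤ 341 / 1000 → ∃ e c : ℝ, 3 - 1 / p < e ∧ 0 < c ∧
      ∀ r : ℝ, 0 < r → r < 1 → c * (1 - r) ^ (-e) ≤ ((2 * Real.pi)⁻¹ *
        ∫ θ in (0 : ℝ)..2 * Real.pi, ‖deriv f (r * exp (θ * I))‖ ^ p) ^ (1 / p) := by
  obtain ⟨B, S⟩ := exists_sl
  obtain ⟨K, hK, HK⟩ := growth1 S
  have hd := fn_diff1 S
  have hi := fn_inj1 S
  refine ⟨fn B, hd, hi, fun p hp hp1 => ?_⟩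
  have hI0 : ∀ r : ℝ, 0 < r → r < 1 → K * (1 - r) ^ (-(231 / 10000) : ℝ) ≤
      ∫ θ in (0 : ℝ)..2 * Real.pi, ‖deriv (fn B) (r * exp (θ * I))‖ ^ (341 / 1000 : ℝ) := HK
  rcases hp1.lt_or_eq with hlt | heq
  · set t : ℝ := (341 / 1000 - p) / (2 / 5 - p) with ht
    have hpp : 0 < 2 / 5 - p := by linarith
    have ht0 : 0 < t := by
      rw [ht]
      exact div_pos (by linarith) hpp
    have ht1 : t < 1 := by
      rw [ht, div_lt_one hpp]
      linarith
    have htt : t * (2 / 5 - p) = 341 / 1000 - p := by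
      rw [ht, div_mul_cancel₀ _ hpp.ne']
    have h1t : 0 < 1 - t := by linarith
    obtain ⟨D, hD, HD⟩ := main_fin_up hd hi
    have hlow : ∀ r : ℝ, 0 < r → r < 1 →
        (K / D ^ t) ^ (1 / (1 - t)) * (1 - r) ^ (-((231 / 10000 - t / 5) / (1 - t))) ≤
        ∫ θ in (0 : ℝ)..2 * Real.pi, ‖deriv (fn B) (r * exp (θ * I))‖ ^ p := by
      intro r hr hr1
      have h1 : 0 < 1 - r := by linarith
      have hH := hoelder (main_fin_cont hd hr hr1) (fun θ => norm_nonneg _) (p := p)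
        (p₀ := 341 / 1000) (p₁ := 2 / 5) (t := t) hp (by norm_num) ht0 ht1 (by nlinarith)
      set J := ∫ θ in (0 : ℝ)..2 * Real.pi, ‖deriv (fn B) (r * exp (θ * I))‖ ^ p with hJ
      set J1 := ∫ θ in (0 : ℝ)..2 * Real.pi,
        ‖deriv (fn B) (r * exp (θ * I))‖ ^ (2 / 5 : ℝ) with hJ1
      have hJ0 : 0 ≤ J := by
        rw [hJ]
        exact intervalIntegral.integral_nonneg (by positivity) fun θ _ => by positivity
      have hJ10 : 0 ≤ J1 := by
        rw [hJ1]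
        exact intervalIntegral.integral_nonneg (by positivity) fun θ _ => by positivity
      have h2 : J1 ^ t ≤ D ^ t * (1 - r) ^ (-(t / 5)) := by
        have := Real.rpow_le_rpow hJ10 (HD r hr hr1) ht0.le
        rw [Real.mul_rpow hD.le (by positivity), ← Real.rpow_mul h1.le] at this
        rwa [show (-(1 / 5) : ℝ) * t = -(t / 5) by ring] at this
      have h3 : K * (1 - r) ^ (-(231 / 10000) : ℝ) ≤
          J ^ (1 - t) * (D ^ t * (1 - r) ^ (-(t / 5))) :=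
        ((hI0 r hr hr1).trans hH).trans (mul_le_mul_of_nonneg_left h2 (by positivity))
      have h4 : K / D ^ t * (1 - r) ^ (-(231 / 10000 - t / 5)) ≤ J ^ (1 - t) := by
        have e : K / D ^ t * (1 - r) ^ (-(231 / 10000 - t / 5)) =
            K * (1 - r) ^ (-(231 / 10000) : ℝ) / (D ^ t * (1 - r) ^ (-(t / 5))) := by
          rw [show (-(231 / 10000 - t / 5) : ℝ) = -(231 / 10000) - -(t / 5) by ring,
            Real.rpow_sub h1]
          field_simp
        rw [e, div_le_iff₀ (by positivity)]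
        exact h3
      have h5 := Real.rpow_le_rpow (by positivity) h4 (z := 1 / (1 - t)) (by positivity)
      rw [← Real.rpow_mul hJ0, mul_one_div_cancel h1t.ne', Real.rpow_one,
        Real.mul_rpow (by positivity) (by positivity), ← Real.rpow_mul h1.le] at h5
      rwa [show -(231 / 10000 - t / 5) * (1 / (1 - t)) = -((231 / 10000 - t / 5) / (1 - t)) by
        ring] at h5
    refine ⟨(231 / 10000 - t / 5) / (1 - t) / p, _, ?_, ?_, main_fin_pow ?_ hp hlow⟩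
    · rw [lt_div_iff₀ hp, lt_div_iff₀ h1t]
      have : (3 - 1 / p) * p = 3 * p - 1 := by
        field_simp
      rw [this]
      nlinarith
    · positivity
    · positivity
  · subst heq
    refine ⟨231 / 10000 / (341 / 1000), _, by norm_num, ?_, main_fin_pow ?_ hp hI0⟩
    · positivity
    · positivity

end Pool.Agent.Helper42.KN
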