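import Pool.Agent.Helper42.KN.Ex

/-!
# KN-E: the univalent function (compare `LB/Fun.lean`, the proofs are the same)
-/

set_option autoImplicit false

namespace Pool.Agent.Helper42.KN

open Complex Metric Set Pool.Agent.Helper42.LB

variable {B : ℂ → ℂ}

theorem fn_diff1 (S : Sl B) : DifferentiableOn ℂ (fn B) (ball 0 1) :=
  differentiableOn_id.mul S.diff.cexp

theorem fn_mem1 (S : Sl B) {z : ℂ} (hz : z ∈ ball (0 : ℂ) 1) : fn B z ∈ ball (0 : ℂ) 1 :=
  mem_ball_zero_iff.2 ((S.le z hz).trans_lt (mem_ball_zero_iff.1 hz))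

theorem fn_ne1 {z : ℂ} (h : z ≠ 0) : fn B z ≠ 0 :=
  mul_ne_zero h (exp_ne_zero _)

private lemma pow_mem1 {z : ℂ} (hz : z ∈ ball (0 : ℂ) 1) {k : ℕ} (hk : k ≠ 0) :
    z ^ k ∈ ball (0 : ℂ) 1 := by
  rw [mem_ball_zero_iff] at hz ⊢
  rw [norm_pow]
  exact pow_lt_one₀ (norm_nonneg z) hz hk

theorem fn_pow1 (S : Sl B) {z : ℂ} (hz : z ∈ ball (0 : ℂ) 1) : fn B z ^ 4 = Phi (fn B (z ^ 4)) := by
  rw [Phi_eq (fn_mem1 S (pow_mem1 hz (by norm_num)))]
  have h2 : exp (4 * B z) = exp (B (z ^ 4)) * exp (AA (fn B (z ^ 4))) := by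
    rw [S.eq z hz, Complex.exp_add]
  have h3 : exp (B z) ^ 4 = exp (4 * B z) := by
    rw [← Complex.exp_nat_mul]
    norm_num
  calc fn B z ^ 4 = z ^ 4 * exp (B z) ^ 4 := by unfold fn; ring
    _ = z ^ 4 * (exp (B (z ^ 4)) * exp (AA (fn B (z ^ 4)))) := by rw [h3, h2]
    _ = (z ^ 4 * exp (B (z ^ 4))) * exp (AA (fn B (z ^ 4))) := by ring
    _ = fn B (z ^ 4) * exp (AA (fn B (z ^ 4))) := rfl

theorem fn_I1 (S : Sl B) {z : ℂ} (hz : z ∈ ball (0 : ℂ) 1) : fn B (I * z) = I * fn B z := by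
  have h1 : (I * z) ^ 4 = z ^ 4 := by
    rw [mul_pow, Complex.I_pow_four, one_mul]
  have hz' : I * z ∈ ball (0 : ℂ) 1 := by
    rw [mem_ball_zero_iff] at hz ⊢
    rwa [norm_mul, Complex.norm_I, one_mul]
  have h2 := S.eq (I * z) hz'
  rw [h1, ← S.eq z hz] at h2
  have h3 : B (I * z) = B z := mul_left_cancel₀ (by norm_num) h2
  unfold fn
  rw [h3]
  ring

theorem fn_neg1 (S : Sl B) {z : ℂ} (hz : z ∈ ball (0 : ℂ) 1) : fn B (-z) = -fn B z := by
  have hz' : I * z ∈ ball (0 : ℂ) 1 := by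
    rw [mem_ball_zero_iff] at hz ⊢
    rwa [norm_mul, Complex.norm_I, one_mul]
  have h3 := fn_I1 S hz'
  have h4 : I * (I * z) = -z := by rw [← mul_assoc, I_mul_I]; ring
  rw [h4, fn_I1 S hz, ← mul_assoc, I_mul_I] at h3
  rw [h3]
  ring

/-- as `fn_inj` in `LB/Fun.lean` -/
theorem fn_inj1 (S : Sl B) : InjOn (fn B) (ball 0 1) := by
  have hpow : ∀ {z : ℂ} (n : ℕ), z ∈ ball (0 : ℂ) 1 → z ^ 4 ^ n ∈ ball (0 : ℂ) 1 := by
    intro z n hz
    rw [mem_ball_zero_iff] at hz ⊢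
    rw [norm_pow]
    exact pow_lt_one₀ (norm_nonneg z) hz (by positivity)
  -- first step
  have hA : ∀ a ∈ ball (0 : ℂ) 1, ∀ b ∈ ball (0 : ℂ) 1, fn B a = fn B b →
      fn B (a ^ 4) = fn B (b ^ 4) := by
    intro a ha b hb hab
    have h1 := fn_pow1 S ha
    have h2 := fn_pow1 S hb
    rw [hab, h2] at h1
    exact (Phi_inj (fn_mem1 S (by simpa using hpow 1 hb))
      (fn_mem1 S (by simpa using hpow 1 ha)) h1).symm
  -- injectivity near the origin
  have hB : ∀ᶠ q in (nhds (0 : ℂ)) ×ˢ (nhds (0 : ℂ)), fn B q.1 = fn B q.2 → q.1 = q.2 := by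
    have han : AnalyticAt ℂ (fn B) 0 :=
      (fn_diff1 S).analyticAt (isOpen_ball.mem_nhds (mem_ball_self one_pos))
    have hd : deriv (fn B) 0 ≠ 0 := by
      have hBd : DifferentiableAt ℂ B 0 :=
        (S.diff 0 (mem_ball_self one_pos)).differentiableAt
          (isOpen_ball.mem_nhds (mem_ball_self one_pos))
      have h1 : HasDerivAt (fn B) (1 * exp (B 0) + 0 * (exp (B 0) * deriv B 0)) 0 :=
        (hasDerivAt_id (0 : ℂ)).mul hBd.hasDerivAt.cexp
      rw [h1.deriv, one_mul, zero_mul, add_zero]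
      exact exp_ne_zero _
    have hs : HasStrictDerivAt (fn B) (deriv (fn B) 0) 0 := han.hasStrictDerivAt
    have h2 := hs.eventually_left_inverse hd
    filter_upwards [h2.prod_mk h2] with q hq
    intro hxy
    rw [← hq.1, hxy, hq.2]
  -- the rotations
  have hD : ∀ c ∈ ball (0 : ℂ) 1, ∀ d ∈ ball (0 : ℂ) 1, fn B c = fn B d → c ^ 4 = d ^ 4 →
      c = d := by
    intro c hc d _ hcd h4
    by_cases hc0 : c = 0
    · rw [hc0] at h4 ⊢
      have : d ^ 4 = 0 := by rw [← h4]; ring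
      exact (pow_eq_zero_iff (by norm_num)).1 this |>.symm
    have hf : fn B c ≠ 0 := mul_ne_zero hc0 (exp_ne_zero _)
    have hIc : I * c ∈ ball (0 : ℂ) 1 := by
      have := hc
      rw [mem_ball_zero_iff] at this ⊢
      simpa using this
    have hIIc : I * (I * c) ∈ ball (0 : ℂ) 1 := by
      have := hIc
      rw [mem_ball_zero_iff] at this ⊢
      simpa using this
    have r1 := fn_I1 S hc
    have r2 := fn_I1 S hIc
    have r3 := fn_I1 S hIIc
    rw [r2, r1] at r3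
    rw [r1] at r2
    have hI2 : I * I = (-1 : ℂ) := I_mul_I
    have hfac : (d - c) * ((d + c) * ((d - I * c) * (d + I * c))) = 0 := by
      have h5 : (d - I * c) * (d + I * c) = d ^ 2 + c ^ 2 := by
        linear_combination (-c ^ 2) * hI2
      rw [h5]
      linear_combination -h4
    rcases mul_eq_zero.1 hfac with h | h
    · exact (sub_eq_zero.1 h).symm
    rcases mul_eq_zero.1 h with h | h
    · exfalso
      have hd : d = I * (I * c) := by linear_combination h - c * hI2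
      rw [hd, r2] at hcd
      apply hf
      have h6 : 2 * fn B c = 0 := by linear_combination hcd + fn B c * hI2
      simpa using h6
    rcases mul_eq_zero.1 h with h | h
    · exfalso
      have hd : d = I * c := sub_eq_zero.1 h
      rw [hd, r1] at hcd
      apply hf
      have h6 : 2 * fn B c = 0 := by linear_combination (1 + I) * hcd + fn B c * hI2
      simpa using h6
    · exfalso
      have hd : d = I * (I * (I * c)) := by linear_combination h - (I * c) * hI2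
      rw [hd, r3] at hcd
      apply hf
      have h6 : 2 * fn B c = 0 := by
        linear_combination (1 - I) * hcd + (fn B c * (1 - I * I + I) ) * hI2
      simpa using h6
  intro a ha b hb hab
  have hn : ∀ n : ℕ, fn B (a ^ 4 ^ n) = fn B (b ^ 4 ^ n) := by
    intro n
    induction n with
    | zero => simpa using hab
    | succ n ih =>
      have h := hA _ (hpow n ha) _ (hpow n hb) ih
      rwa [← pow_mul, ← pow_mul, ← pow_succ] at h
  have ht : ∀ {z : ℂ}, z ∈ ball (0 : ℂ) 1 →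
      Filter.Tendsto (fun n : ℕ => z ^ 4 ^ n) Filter.atTop (nhds 0) := by
    intro z hz
    rw [mem_ball_zero_iff] at hz
    exact (tendsto_pow_atTop_nhds_zero_of_norm_lt_one hz).comp
      (tendsto_pow_atTop_atTop_of_one_lt (by norm_num : (1 : ℕ) < 4))
  have hex : ∃ n : ℕ, a ^ 4 ^ n = b ^ 4 ^ n := by
    obtain ⟨n, hn'⟩ := (((ht ha).prodMk (ht hb)).eventually hB).exists
    exact ⟨n, hn' (hn n)⟩
  obtain ⟨n, hn'⟩ := hex
  induction n with
  | zero => simpa using hn'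
  | succ n ih =>
    apply ih
    apply hD _ (hpow n ha) _ (hpow n hb) (hn n)
    rwa [← pow_mul, ← pow_mul, ← pow_succ]

theorem ps_cont1 (S : Sl B) : ContinuousOn (ps B) (ball 0 1) := by
  have h1 : ContinuousOn (fun z => LL (fn B z)) (ball 0 1) :=
    diff_LL.continuousOn.comp (fn_diff1 S).continuousOn fun z hz => fn_mem1 S hz
  exact Complex.continuous_re.comp_continuousOn h1

theorem SS_cont1 (S : Sl B) (n : ℕ) : ContinuousOn (SS B n) (ball 0 1) := by
  refine continuousOn_finset_sum _ (fun j _ => ?_)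
  exact (ps_cont1 S).comp (continuous_pow _).continuousOn
    fun z hz => pow_mem1 hz (by positivity)

theorem SS_succ1 (n : ℕ) (z : ℂ) : SS B (n + 1) z = ps B z + SS B n (z ^ 4) := by
  unfold SS
  rw [Finset.sum_range_succ', add_comm, pow_zero, pow_one]
  congr 1
  refine Finset.sum_congr rfl (fun j _ => ?_)
  rw [← pow_mul, pow_succ']

private theorem C3_has1 (S : Sl B) {z : ℂ} (hz : z ∈ ball (0 : ℂ) 1) :
    HasDerivAt (fn B) (exp (B z) * QQ B z) z := by
  have h1 : HasDerivAt B (deriv B z) z :=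
    ((S.diff z hz).differentiableAt (isOpen_ball.mem_nhds hz)).hasDerivAt
  have h2 := (hasDerivAt_id z).mul h1.cexp
  have h3 : exp (B z) * QQ B z = 1 * exp (B z) + id z * (exp (B z) * deriv B z) := by
    unfold QQ
    simp only [id]
    ring
  rw [h3]
  exact h2

theorem deriv_fn1 (S : Sl B) {z : ℂ} (hz : z ∈ ball (0 : ℂ) 1) :
    deriv (fn B) z = exp (B z) * QQ B z :=
  (C3_has1 S hz).deriv

private theorem C3_pow_mem1 {z : ℂ} (hz : z ∈ ball (0 : ℂ) 1) (k : ℕ) (hk : k ≠ 0) :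
    z ^ k ∈ ball (0 : ℂ) 1 := by
  rw [mem_ball_zero_iff] at hz ⊢
  rw [norm_pow]
  exact pow_lt_one₀ (norm_nonneg z) hz hk

private theorem C3_zero1 : QQ B 0 = 1 := by
  unfold QQ
  rw [zero_mul, add_zero]

/-- as `QQ_eq` in `LB/Fun.lean` -/
theorem QQ_eq1 (S : Sl B) {z : ℂ} (hz : z ∈ ball (0 : ℂ) 1) :
    QQ B z = exp (LL (fn B (z ^ 4))) * QQ B (z ^ 4) := by
  have hz4 : z ^ 4 ∈ ball (0 : ℂ) 1 := C3_pow_mem1 hz 4 (by norm_num)
  by_cases hz0 : z = 0
  · subst hz0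
    have h0 : fn B 0 = 0 := by
      unfold fn
      rw [zero_mul]
    rw [show (0 : ℂ) ^ 4 = 0 by norm_num, h0, LL_zero, exp_zero, one_mul]
  have hw : fn B (z ^ 4) ∈ ball (0 : ℂ) 1 := fn_mem1 S hz4
  obtain ⟨d, hd, hd2⟩ := hasDerivAt_Phi hw
  have e1 : HasDerivAt (fun x => fn B x ^ 4) (4 * fn B z ^ 3 * (exp (B z) * QQ B z)) z := by
    have h1 := (C3_has1 S hz).fun_pow 4
    simpa using h1
  have e2 : HasDerivAt (fun x => Phi (fn B (x ^ 4)))
      (d * (exp (B (z ^ 4)) * QQ B (z ^ 4) * (4 * z ^ 3))) z := by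
    have h1 : HasDerivAt (fun x : ℂ => x ^ 4) (4 * z ^ 3) z := by
      have := hasDerivAt_pow 4 z
      simpa using this
    have h2 : HasDerivAt (fun x : ℂ => fn B (x ^ 4))
        (exp (B (z ^ 4)) * QQ B (z ^ 4) * (4 * z ^ 3)) z :=
      HasDerivAt.comp (h₂ := fn B) (h := fun x : ℂ => x ^ 4) z (C3_has1 S hz4) h1
    exact HasDerivAt.comp (h₂ := Phi) (h := fun x : ℂ => fn B (x ^ 4)) z hd h2
  have e3 : (fun x => fn B x ^ 4) =ᶠ[nhds z] fun x => Phi (fn B (x ^ 4)) := by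
    filter_upwards [isOpen_ball.mem_nhds hz] with x hx
    exact fn_pow1 S hx
  have e4 := e1.unique (e2.congr_of_eventuallyEq e3)
  have e5 := fn_pow1 S hz
  have e6 : fn B z ≠ 0 := mul_ne_zero hz0 (exp_ne_zero _)
  rw [← exp_LL hw] at hd2
  have e7 : 4 * fn B z ^ 4 * QQ B z =
      4 * fn B z ^ 4 * (exp (LL (fn B (z ^ 4))) * QQ B (z ^ 4)) := by
    calc 4 * fn B z ^ 4 * QQ B z = z * (4 * fn B z ^ 3 * (exp (B z) * QQ B z)) := by
          have h1 : fn B z = z * exp (B z) := rfl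
          have h2 : fn B z ^ 4 = fn B z ^ 3 * (z * exp (B z)) := by
            rw [← h1]
            ring
          rw [h2]
          ring
      _ = z * (d * (exp (B (z ^ 4)) * QQ B (z ^ 4) * (4 * z ^ 3))) := by rw [e4]
      _ = 4 * (z ^ 4 * exp (B (z ^ 4)) * d) * QQ B (z ^ 4) := by ring
      _ = 4 * (fn B (z ^ 4) * d) * QQ B (z ^ 4) := rfl
      _ = 4 * Phi (fn B (z ^ 4)) * (exp (LL (fn B (z ^ 4))) * QQ B (z ^ 4)) := by
          rw [hd2]
          ring
      _ = 4 * fn B z ^ 4 * (exp (LL (fn B (z ^ 4))) * QQ B (z ^ 4)) := by rw [← e5]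
  exact mul_left_cancel₀ (mul_ne_zero (by norm_num) (pow_ne_zero 4 e6)) e7

theorem QQ_norm1 (S : Sl B) (n : ℕ) {z : ℂ} (hz : z ∈ ball (0 : ℂ) 1) :
    ‖QQ B z‖ = Real.exp (SS B n (z ^ 4)) * ‖QQ B (z ^ 4 ^ n)‖ := by
  induction n with
  | zero => simp [SS]
  | succ n ih =>
    have h1 : z ^ 4 ^ n ∈ ball (0 : ℂ) 1 := C3_pow_mem1 hz _ (pow_ne_zero n (by norm_num))
    have h2 : (z ^ 4 ^ n) ^ 4 = z ^ 4 ^ (n + 1) := by rw [← pow_mul, pow_succ]
    have h3 : (z ^ 4) ^ 4 ^ n = z ^ 4 ^ (n + 1) := by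
      rw [← pow_mul, pow_succ, mul_comm]
    have h4 : SS B (n + 1) (z ^ 4) = SS B n (z ^ 4) + ps B (z ^ 4 ^ (n + 1)) := by
      unfold SS
      rw [Finset.sum_range_succ, h3]
    rw [ih, QQ_eq1 S h1, h2, norm_mul, Complex.norm_exp, h4, Real.exp_add, ← mul_assoc]
    rfl

/-- as `QQ_lower` in `LB/Fun.lean` -/
theorem QQ_lower1 (S : Sl B) {r : ℝ} (h1 : r < 1) :
    ∃ q : ℝ, 0 < q ∧ ∀ z : ℂ, ‖z‖ ≤ r → q ≤ ‖QQ B z‖ := by
  have hc : ContinuousOn (QQ B) (ball 0 1) := by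
    have h2 : ContinuousOn (deriv B) (ball 0 1) := (S.diff.deriv isOpen_ball).continuousOn
    exact continuousOn_const.add (continuousOn_id.mul h2)
  have hne : ∀ z ∈ ball (0 : ℂ) 1, 0 < ‖QQ B z‖ := by
    intro z hz
    have h3 : ContinuousAt (QQ B) 0 :=
      hc.continuousAt (isOpen_ball.mem_nhds (mem_ball_self one_pos))
    have h4 : Filter.Tendsto (fun n : ℕ => z ^ 4 ^ n) Filter.atTop (nhds 0) := by
      have h5 := tendsto_pow_atTop_nhds_zero_of_norm_lt_one (mem_ball_zero_iff.1 hz)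
      exact h5.comp (tendsto_pow_atTop_atTop_of_one_lt (by norm_num : 1 < 4))
    have h6 : Filter.Tendsto (fun n : ℕ => QQ B (z ^ 4 ^ n)) Filter.atTop (nhds 1) := by
      have h7 : Filter.Tendsto (QQ B) (nhds 0) (nhds 1) := by
        have h8 := h3.tendsto
        rwa [C3_zero1] at h8
      exact h7.comp h4
    obtain ⟨n, hn⟩ := (h6.eventually_ne one_ne_zero).exists
    rw [QQ_norm1 S n hz]
    exact mul_pos (Real.exp_pos _) (norm_pos_iff.2 hn)
  rcases lt_or_ge r 0 with hr | hr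
  · exact ⟨1, one_pos, fun z hz => absurd (hz.trans_lt hr) (not_lt.2 (norm_nonneg z))⟩
  · have hsub : closedBall (0 : ℂ) r ⊆ ball 0 1 := closedBall_subset_ball h1
    obtain ⟨z0, hz0, hmin⟩ := (isCompact_closedBall (0 : ℂ) r).exists_isMinOn
      ⟨0, mem_closedBall_self hr⟩ (hc.mono hsub).norm
    exact ⟨‖QQ B z0‖, hne z0 (hsub hz0), fun z hz => hmin (mem_closedBall_zero_iff.2 hz)⟩

end Pool.Agent.Helper42.KN
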