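import Pool.Agent.Helper42.KN.One

/-!
# KN-B: monotonicity in `X`
-/

set_option autoImplicit false

namespace Pool.Agent.Helper42.KN

open Set

/-- concavity of `t ↦ t^s` (`Real.concaveOn_rpow`): `2X ± 2C` lie between `2X - 2` and `2X + 2` and have
the same sum -/
theorem conc {X C s : ℝ} (hX : 1 ≤ X) (h0 : 0 ≤ C) (h1 : C ≤ 1) (hs : 0 < s) (hs1 : s < 1) :
    (2 * X + 2) ^ s + (2 * X - 2) ^ s ≤ (2 * X + 2 * C) ^ s + (2 * X - 2 * C) ^ s := by
  have hc : ConcaveOn ℝ (Ici 0) fun x : ℝ => x ^ s := Real.concaveOn_rpow hs.le hs1.le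
  have hp : (2 * X + 2) ∈ Ici (0 : ℝ) := mem_Ici.2 (by linarith)
  have hm : (2 * X - 2) ∈ Ici (0 : ℝ) := mem_Ici.2 (by linarith)
  have ha : 0 ≤ (1 + C) / 2 := by linarith
  have hb : 0 ≤ (1 - C) / 2 := by linarith
  have k1 := hc.2 hp hm ha hb (by ring)
  have k2 := hc.2 hp hm hb ha (by ring)
  simp only [smul_eq_mul] at k1 k2
  have e1 : (1 + C) / 2 * (2 * X + 2) + (1 - C) / 2 * (2 * X - 2) = 2 * X + 2 * C := by ring
  have e2 : (1 - C) / 2 * (2 * X + 2) + (1 + C) / 2 * (2 * X - 2) = 2 * X - 2 * C := by ring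
  rw [e1] at k1
  rw [e2] at k2
  linarith

private theorem b2_low {A num den n N M : ℕ} (hN : N ≠ 0) (hd : 0 < den) (hM : 0 < M)
    (h : A ^ N * den ^ n ≤ num ^ n * M ^ N) :
    (A : ℝ) / M ≤ ((num : ℝ) / den) ^ ((n : ℝ) / N) := by
  have h1 : (A : ℝ) ^ N * (den : ℝ) ^ n ≤ (num : ℝ) ^ n * (M : ℝ) ^ N := by exact_mod_cast h
  have hd' : (0 : ℝ) < (den : ℝ) ^ n := pow_pos (by exact_mod_cast hd) n
  have hM' : (0 : ℝ) < (M : ℝ) ^ N := pow_pos (by exact_mod_cast hM) N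
  have h2 : ((A : ℝ) / M) ^ N ≤ ((num : ℝ) / den) ^ n := by
    rw [div_pow, div_pow, div_le_div_iff₀ hM' hd']
    exact h1
  have h3 : (0 : ℝ) ≤ (A : ℝ) / M := div_nonneg (Nat.cast_nonneg _) (Nat.cast_nonneg _)
  have h4 : (0 : ℝ) ≤ (num : ℝ) / den := div_nonneg (Nat.cast_nonneg _) (Nat.cast_nonneg _)
  have h5 : (0 : ℝ) ≤ (N : ℝ)⁻¹ := inv_nonneg.2 (Nat.cast_nonneg _)
  calc (A : ℝ) / M = (((A : ℝ) / M) ^ N) ^ ((N : ℝ)⁻¹) := (Real.pow_rpow_inv_natCast h3 hN).symm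
    _ ≤ (((num : ℝ) / den) ^ n) ^ ((N : ℝ)⁻¹) := Real.rpow_le_rpow (pow_nonneg h3 N) h2 h5
    _ = ((num : ℝ) / den) ^ ((n : ℝ) / N) := by
        rw [← Real.rpow_natCast, ← Real.rpow_mul h4, div_eq_mul_inv (n : ℝ)]

private theorem b2_up {A num den n N M : ℕ} (hN : N ≠ 0) (hd : 0 < den) (hM : 0 < M)
    (h : num ^ n * M ^ N ≤ A ^ N * den ^ n) :
    ((num : ℝ) / den) ^ ((n : ℝ) / N) ≤ (A : ℝ) / M := by
  have h1 : (num : ℝ) ^ n * (M : ℝ) ^ N ≤ (A : ℝ) ^ N * (den : ℝ) ^ n := by exact_mod_cast h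
  have hd' : (0 : ℝ) < (den : ℝ) ^ n := pow_pos (by exact_mod_cast hd) n
  have hM' : (0 : ℝ) < (M : ℝ) ^ N := pow_pos (by exact_mod_cast hM) N
  have h2 : ((num : ℝ) / den) ^ n ≤ ((A : ℝ) / M) ^ N := by
    rw [div_pow, div_pow, div_le_div_iff₀ hd' hM']
    exact h1
  have h3 : (0 : ℝ) ≤ (A : ℝ) / M := div_nonneg (Nat.cast_nonneg _) (Nat.cast_nonneg _)
  have h4 : (0 : ℝ) ≤ (num : ℝ) / den := div_nonneg (Nat.cast_nonneg _) (Nat.cast_nonneg _)
  have h5 : (0 : ℝ) ≤ (N : ℝ)⁻¹ := inv_nonneg.2 (Nat.cast_nonneg _)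
  calc ((num : ℝ) / den) ^ ((n : ℝ) / N) = (((num : ℝ) / den) ^ n) ^ ((N : ℝ)⁻¹) := by
        rw [← Real.rpow_natCast, ← Real.rpow_mul h4, div_eq_mul_inv (n : ℝ)]
    _ ≤ (((A : ℝ) / M) ^ N) ^ ((N : ℝ)⁻¹) := Real.rpow_le_rpow (pow_nonneg h4 n) h2 h5
    _ = (A : ℝ) / M := Real.pow_rpow_inv_natCast h3 hN

/-- `A / 10^4 ≤ T^(n/4000)` if `A^4000 ≤ T^n 10^16000` (rational numbers): for the numerical bounds in
`num_ineq` use a kernel check (`decide +kernel` on natural numbers) as in `Tab`. -/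
theorem rpow_lower {A num den n : ℕ} (hd : 0 < den)
    (h : A ^ 4000 * den ^ n ≤ num ^ n * 10000 ^ 4000) :
    (A : ℝ) / 10000 ≤ ((num : ℝ) / den) ^ ((n : ℝ) / 4000) := by
  have h1 := b2_low (A := A) (num := num) (den := den) (n := n) (N := 4000) (M := 10000)
    (by decide) hd (by decide) h
  rw [Nat.cast_ofNat, Nat.cast_ofNat] at h1
  exact h1

theorem rpow_upper {A num den n : ℕ} (hd : 0 < den)
    (h : num ^ n * 10000 ^ 4000 ≤ A ^ 4000 * den ^ n) :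
    ((num : ℝ) / den) ^ ((n : ℝ) / 4000) ≤ (A : ℝ) / 10000 := by
  have h1 := b2_up (A := A) (num := num) (den := den) (n := n) (N := 4000) (M := 10000)
    (by decide) hd (by decide) h
  rw [Nat.cast_ofNat, Nat.cast_ofNat] at h1
  exact h1

private theorem b2_w1 {X y P a : ℝ} (hX : 0 ≤ X) (h1 : X ≤ y) (hP : 0 ≤ P) (h : P ≤ a) :
    4 * X * (10326 / 10000) * (205 / 1000) * P ≤ 4 * y * (10326 / 10000) * (205 / 1000) * a := by
  have hy : 0 ≤ y := hX.trans h1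
  gcongr

private theorem b2_w2 {x X K b c P Q : ℝ} (hx : 0 ≤ x) (hb : 0 ≤ b) (hc : 0 ≤ c)
    (hk : 942621 / 1000000 ≤ K) (h2 : b ≤ P) (h3 : c ≤ Q) (hX : x ≤ X) :
    (942621 / 1000000 : ℝ) / 4 * (b + c) + 2 * x * (942621 / 1000000) * (205 / 1000) ≤
      K / 4 * (P + Q) + 2 * X * K * (205 / 1000) := by
  have hX0 : 0 ≤ X := hx.trans hX
  gcongr

/-- the data of a step -/
private def b2_ok (m m' A B C : ℕ) : Bool :=
  decide (1000 ≤ m) &&
  decide ((2 * m' ^ 2) ^ 1023 * 10000 ^ 4000 ≤ A ^ 4000 * 1000000 ^ 1023) &&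
  decide (B ^ 4000 * 1000 ^ 2977 ≤ (2 * m + 2000) ^ 2977 * 10000 ^ 4000) &&
  decide (C ^ 4000 * 1000 ^ 2977 ≤ (2 * m - 2000) ^ 2977 * 10000 ^ 4000) &&
  decide (4 * m' * 10326 * 205 * A ≤ 942621 * 2500 * (B + C) + 942621 * 205 * 200 * m)

/-- one step of the grid -/
private theorem b2_step {m m' A B C : ℕ} (h : b2_ok m m' A B C = true) {X : ℝ}
    (h0 : (m : ℝ) / 1000 ≤ X) (h1 : X ≤ (m' : ℝ) / 1000) :
    4 * X * (10326 / 10000) * (205 / 1000) * (2 * X ^ 2) ^ aa ≤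
      kp / 4 * ((2 * X + 2) ^ (1 - aa) + (2 * X - 2) ^ (1 - aa)) + 2 * X * kp * (205 / 1000) := by
  simp only [b2_ok, Bool.and_eq_true, decide_eq_true_eq] at h
  obtain ⟨⟨⟨⟨k1, k2⟩, k3⟩, k4⟩, k5⟩ := h
  have e2 : (1 : ℝ) - aa = ((2977 : ℕ) : ℝ) / 4000 := by unfold aa; norm_num
  have e1 : aa = ((1023 : ℕ) : ℝ) / 4000 := by unfold aa; norm_num
  have hm : (1000 : ℝ) ≤ m := by exact_mod_cast k1
  have hX1 : 1 ≤ X := by
    have : (1 : ℝ) ≤ (m : ℝ) / 1000 := by rw [le_div_iff₀ (by norm_num)]; linarith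
    linarith
  have u1 := rpow_upper (A := A) (num := 2 * m' ^ 2) (den := 1000000) (n := 1023) (by norm_num) k2
  have l1 := rpow_lower (A := B) (num := 2 * m + 2000) (den := 1000) (n := 2977) (by norm_num) k3
  have l2 := rpow_lower (A := C) (num := 2 * m - 2000) (den := 1000) (n := 2977) (by norm_num) k4
  clear k2 k3 k4
  rw [← e1] at u1
  rw [← e2] at l1 l2
  have c1 : ((2 * m' ^ 2 : ℕ) : ℝ) / ((1000000 : ℕ) : ℝ) = 2 * ((m' : ℝ) / 1000) ^ 2 := by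
    push_cast
    ring
  have c2 : ((2 * m + 2000 : ℕ) : ℝ) / ((1000 : ℕ) : ℝ) = 2 * ((m : ℝ) / 1000) + 2 := by
    push_cast
    ring
  have c3 : ((2 * m - 2000 : ℕ) : ℝ) / ((1000 : ℕ) : ℝ) = 2 * ((m : ℝ) / 1000) - 2 := by
    rw [Nat.cast_sub (by omega)]
    push_cast
    ring
  rw [c1] at u1
  rw [c2] at l1
  rw [c3] at l2
  have a0 : 0 < aa := by unfold aa; norm_num
  have a1 : 0 < 1 - aa := by unfold aa; norm_num
  have hm' : 0 ≤ (m' : ℝ) := Nat.cast_nonneg _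
  have v1 : (2 * X ^ 2) ^ aa ≤ (A : ℝ) / 10000 := by
    refine le_trans (Real.rpow_le_rpow (by positivity) ?_ a0.le) u1
    have : X ^ 2 ≤ ((m' : ℝ) / 1000) ^ 2 := pow_le_pow_left₀ (by linarith) h1 2
    linarith
  have v2 : (B : ℝ) / 10000 ≤ (2 * X + 2) ^ (1 - aa) :=
    le_trans l1 (Real.rpow_le_rpow (by positivity) (by linarith) a1.le)
  have v3 : (C : ℝ) / 10000 ≤ (2 * X - 2) ^ (1 - aa) := by
    refine le_trans l2 (Real.rpow_le_rpow ?_ (by linarith) a1.le)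
    have : (1 : ℝ) ≤ (m : ℝ) / 1000 := by rw [le_div_iff₀ (by norm_num)]; linarith
    linarith
  have v4 := kp_lower
  have v5 : (4 : ℝ) * m' * 10326 * 205 * A ≤
      942621 * 2500 * (B + C) + 942621 * 205 * 200 * m := by exact_mod_cast k5
  have hB : (0 : ℝ) ≤ B := Nat.cast_nonneg _
  have hC : (0 : ℝ) ≤ C := Nat.cast_nonneg _
  have hA : (0 : ℝ) ≤ A := Nat.cast_nonneg _
  clear k5 k1
  have w3 : 4 * ((m' : ℝ) / 1000) * (10326 / 10000) * (205 / 1000) * ((A : ℝ) / 10000) ≤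
      (942621 / 1000000 : ℝ) / 4 * ((B : ℝ) / 10000 + (C : ℝ) / 10000) +
      2 * ((m : ℝ) / 1000) * (942621 / 1000000) * (205 / 1000) := by
    linarith
  clear v5
  have w1 : 4 * X * (10326 / 10000) * (205 / 1000) * (2 * X ^ 2) ^ aa ≤
      4 * ((m' : ℝ) / 1000) * (10326 / 10000) * (205 / 1000) * ((A : ℝ) / 10000) :=
    b2_w1 (by linarith) h1 (Real.rpow_nonneg (by positivity) _) v1
  have w2 : (942621 / 1000000 : ℝ) / 4 * ((B : ℝ) / 10000 + (C : ℝ) / 10000) +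
      2 * ((m : ℝ) / 1000) * (942621 / 1000000) * (205 / 1000) ≤
      kp / 4 * ((2 * X + 2) ^ (1 - aa) + (2 * X - 2) ^ (1 - aa)) + 2 * X * kp * (205 / 1000) :=
    b2_w2 (by linarith) (div_nonneg hB (by norm_num)) (div_nonneg hC (by norm_num)) v4 v2 v3 h0
  exact w1.trans (w3.trans w2)

/-- Here `s = 1 - aa = 2977/4000`. Let `G X = kp/4 ((2X+2)^s + (2X-2)^s) + 2 X kp 0.205` and
`L X = 4 X 1.0326 0.205 (2 X^2)^aa`; both are increasing in `X`, so on `[x, y]` it is enough that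
`L y ≤ G x`. This holds for consecutive points of the grid
`1, 1.02, 1.04, 1.06, 1.07, 1.08, 1.09, 1.1, 1.105, 1.11, 1.115`: the values are
`G = 1.0477, 1.0818, 1.1089, 1.1342, 1.1464, 1.1584, 1.1702, 1.1819, 1.1877, 1.1934`,
`L (next) = 1.0418, 1.0729, 1.1042, 1.1200, 1.1358, 1.1518, 1.1678, 1.1758, 1.1839, 1.1919`
(`kp_lower`, `rpow_lower`, `rpow_upper` with four digits). Suggestion: one lemma for a step with natural
numbers as data and ten applications with `decide +kernel`. -/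
theorem num_ineq {X : ℝ} (h0 : 1 ≤ X) (h1 : X ≤ 223 / 200) :
    4 * X * (10326 / 10000) * (205 / 1000) * (2 * X ^ 2) ^ aa ≤
      kp / 4 * ((2 * X + 2) ^ (1 - aa) + (2 * X - 2) ^ (1 - aa)) + 2 * X * kp * (205 / 1000) := by
  have s1 : b2_ok 1000 1020 12062 28059 0 = true := by decide +kernel
  have s2 : b2_ok 1020 1040 12182 28268 911 = true := by decide +kernel
  have s3 : b2_ok 1040 1060 12301 28476 1526 = true := by decide +kernel
  have s4 : b2_ok 1060 1070 12360 28683 2063 = true := by decide +kernel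
  have s5 : b2_ok 1070 1080 12419 28787 2314 = true := by decide +kernel
  have s6 : b2_ok 1080 1090 12478 28890 2556 = true := by decide +kernel
  have s7 : b2_ok 1090 1100 12537 28994 2790 = true := by decide +kernel
  have s8 : b2_ok 1100 1105 12566 29097 3018 = true := by decide +kernel
  have s9 : b2_ok 1105 1110 12595 29148 3130 = true := by decide +kernel
  have s10 : b2_ok 1110 1115 12624 29200 3240 = true := by decide +kernel
  rcases le_total X (102 / 100) with k | k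
  · exact b2_step s1 (by norm_num; linarith) (by norm_num; linarith)
  rcases le_total X (104 / 100) with k' | k'
  · exact b2_step s2 (by norm_num; linarith) (by norm_num; linarith)
  clear k
  rcases le_total X (106 / 100) with k | k
  · exact b2_step s3 (by norm_num; linarith) (by norm_num; linarith)
  clear k'
  rcases le_total X (107 / 100) with k' | k'
  · exact b2_step s4 (by norm_num; linarith) (by norm_num; linarith)
  clear k
  rcases le_total X (108 / 100) with k | k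
  · exact b2_step s5 (by norm_num; linarith) (by norm_num; linarith)
  clear k'
  rcases le_total X (109 / 100) with k' | k'
  · exact b2_step s6 (by norm_num; linarith) (by norm_num; linarith)
  clear k
  rcases le_total X (110 / 100) with k | k
  · exact b2_step s7 (by norm_num; linarith) (by norm_num; linarith)
  clear k'
  rcases le_total X (1105 / 1000) with k' | k'
  · exact b2_step s8 (by norm_num; linarith) (by norm_num; linarith)
  clear k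
  rcases le_total X (111 / 100) with k | k
  · exact b2_step s9 (by norm_num; linarith) (by norm_num; linarith)
  · exact b2_step s10 (by norm_num; linarith) (by norm_num; linarith)

/-- For `U = 2X + 2C`, `V = 2X - 2C`, `U V = 4 X^2 - 4 C^2`, `W = 4 X^2 - 4 S^2 ≤ 4 X^2`:
`U^(a-1) + V^(a-1) = (UV)^(a-1) (U^(1-a) + V^(1-a))`; `conc`, `num_ineq`
(`(W/2)^a ≤ (2X^2)^a`). -/
theorem pair_ineq {X C S : ℝ} (hX : 1 < X) (hX1 : X ≤ 223 / 200) (h0 : 0 ≤ C) (h1 : C ≤ 1)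
    (hS : 0 ≤ S) (hS1 : S ≤ 1) :
    10326 / 10000 * (205 / 1000) * (4 * X) * ((4 * X ^ 2 - 4 * C ^ 2) ^ (aa - 1) *
        ((4 * X ^ 2 - 4 * S ^ 2) / 2) ^ aa) ≤
      kp / 4 * ((2 * X + 2 * C) ^ (aa - 1) + (2 * X - 2 * C) ^ (aa - 1)) +
        kp * (205 / 2000) * (4 * X) * (4 * X ^ 2 - 4 * C ^ 2) ^ (aa - 1) := by
  have ha0 : 0 < aa := by
    unfold aa
    norm_num
  have ha1 : aa < 1 := by
    unfold aa
    norm_num
  have hU : 0 < 2 * X + 2 * C := by linarith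
  have hV : 0 < 2 * X - 2 * C := by linarith
  have hA : 4 * X ^ 2 - 4 * C ^ 2 = (2 * X + 2 * C) * (2 * X - 2 * C) := by ring
  have hA0 : 0 < 4 * X ^ 2 - 4 * C ^ 2 := by
    rw [hA]
    exact mul_pos hU hV
  have hP : 0 ≤ (4 * X ^ 2 - 4 * C ^ 2) ^ (aa - 1) := Real.rpow_nonneg hA0.le _
  have e1 : (2 * X + 2 * C) ^ (aa - 1) =
      (4 * X ^ 2 - 4 * C ^ 2) ^ (aa - 1) * (2 * X - 2 * C) ^ (1 - aa) := by
    rw [hA, Real.mul_rpow hU.le hV.le, mul_assoc, ← Real.rpow_add hV]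
    rw [show aa - 1 + (1 - aa) = 0 by ring, Real.rpow_zero, mul_one]
  have e2 : (2 * X - 2 * C) ^ (aa - 1) =
      (4 * X ^ 2 - 4 * C ^ 2) ^ (aa - 1) * (2 * X + 2 * C) ^ (1 - aa) := by
    rw [hA, Real.mul_rpow hU.le hV.le, mul_right_comm, ← Real.rpow_add hU]
    rw [show aa - 1 + (1 - aa) = 0 by ring, Real.rpow_zero, one_mul]
  have h2 := conc hX.le h0 h1 (s := 1 - aa) (by linarith) (by linarith)
  have h3 := num_ineq hX.le hX1
  have hS2 : S ^ 2 ≤ 1 := by nlinarith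
  have hX2 : 1 ≤ X ^ 2 := by nlinarith
  have h4 : ((4 * X ^ 2 - 4 * S ^ 2) / 2) ^ aa ≤ (2 * X ^ 2) ^ aa := by
    refine Real.rpow_le_rpow ?_ ?_ ha0.le
    · linarith
    · nlinarith [sq_nonneg S]
  have hk : 0 < kp := kp_pos
  have h5 : 10326 / 10000 * (205 / 1000) * (4 * X) * ((4 * X ^ 2 - 4 * S ^ 2) / 2) ^ aa ≤
      kp / 4 * ((2 * X + 2 * C) ^ (1 - aa) + (2 * X - 2 * C) ^ (1 - aa)) +
        kp * (205 / 2000) * (4 * X) := by
    have h6 : 10326 / 10000 * (205 / 1000) * (4 * X) * ((4 * X ^ 2 - 4 * S ^ 2) / 2) ^ aa ≤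
        10326 / 10000 * (205 / 1000) * (4 * X) * (2 * X ^ 2) ^ aa :=
      mul_le_mul_of_nonneg_left h4 (by nlinarith)
    have h7 : kp / 4 * ((2 * X + 2) ^ (1 - aa) + (2 * X - 2) ^ (1 - aa)) ≤
        kp / 4 * ((2 * X + 2 * C) ^ (1 - aa) + (2 * X - 2 * C) ^ (1 - aa)) :=
      mul_le_mul_of_nonneg_left h2 (by positivity)
    linarith
  have h8 := mul_le_mul_of_nonneg_left h5 hP
  rw [e1, e2]
  linarith

/-- the derivative in `X`; compare with the two inequalities `pair_ineq` (for `(C, S)` and `(S, C)`) -/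
theorem FF_deriv {X C S : ℝ} (hX : 1 < X) (h0 : 0 ≤ C) (h1 : C ≤ 1) (hS : 0 ≤ S) (hS1 : S ≤ 1) :
    HasDerivAt (fun X => FF X C S)
      (2 * aa * (kp / 4 * ((2 * X + 2 * C) ^ (aa - 1) + (2 * X - 2 * C) ^ (aa - 1)) +
        kp * (205 / 2000) * (4 * X) * (4 * X ^ 2 - 4 * C ^ 2) ^ (aa - 1) -
        10326 / 10000 * (205 / 1000) * (4 * X) * ((4 * X ^ 2 - 4 * C ^ 2) ^ (aa - 1) *
          ((4 * X ^ 2 - 4 * S ^ 2) / 2) ^ aa)) +
      2 * aa * (kp / 4 * ((2 * X + 2 * S) ^ (aa - 1) + (2 * X - 2 * S) ^ (aa - 1)) +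
        kp * (205 / 2000) * (4 * X) * (4 * X ^ 2 - 4 * S ^ 2) ^ (aa - 1) -
        10326 / 10000 * (205 / 1000) * (4 * X) * ((4 * X ^ 2 - 4 * S ^ 2) ^ (aa - 1) *
          ((4 * X ^ 2 - 4 * C ^ 2) / 2) ^ aa))) X := by
  have hU : 0 < 2 * X + 2 * C := by linarith
  have hV : 0 < 2 * X - 2 * C := by linarith
  have hU' : 0 < 2 * X + 2 * S := by linarith
  have hV' : 0 < 2 * X - 2 * S := by linarith
  have hA0 : 0 < 4 * X ^ 2 - 4 * C ^ 2 := by nlinarith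
  have hB0 : 0 < 4 * X ^ 2 - 4 * S ^ 2 := by nlinarith
  have lin : ∀ c : ℝ, HasDerivAt (fun X : ℝ => 2 * X + c) 2 X := by
    intro c
    simpa using ((hasDerivAt_id X).const_mul 2).add_const c
  have quad : ∀ c : ℝ, HasDerivAt (fun X : ℝ => 4 * X ^ 2 - c) (8 * X) X := by
    intro c
    have h := (((hasDerivAt_id X).pow 2).const_mul 4).sub_const c
    refine h.congr_deriv ?_
    simp
    ring
  have d1 : HasDerivAt (fun X : ℝ => (2 * X + 2 * C) ^ aa) (2 * aa * (2 * X + 2 * C) ^ (aa - 1)) X :=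
    (lin (2 * C)).rpow_const (p := aa) (Or.inl hU.ne')
  have d2 : HasDerivAt (fun X : ℝ => (2 * X - 2 * C) ^ aa) (2 * aa * (2 * X - 2 * C) ^ (aa - 1)) X := by
    have h := (lin (-(2 * C))).rpow_const (p := aa) (Or.inl (by
      have := hV.ne'
      rwa [sub_eq_add_neg] at this))
    simpa only [← sub_eq_add_neg] using h
  have d3 : HasDerivAt (fun X : ℝ => (2 * X + 2 * S) ^ aa) (2 * aa * (2 * X + 2 * S) ^ (aa - 1)) X :=
    (lin (2 * S)).rpow_const (p := aa) (Or.inl hU'.ne')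
  have d4 : HasDerivAt (fun X : ℝ => (2 * X - 2 * S) ^ aa) (2 * aa * (2 * X - 2 * S) ^ (aa - 1)) X := by
    have h := (lin (-(2 * S))).rpow_const (p := aa) (Or.inl (by
      have := hV'.ne'
      rwa [sub_eq_add_neg] at this))
    simpa only [← sub_eq_add_neg] using h
  have d5 : HasDerivAt (fun X : ℝ => (4 * X ^ 2 - 4 * C ^ 2) ^ aa)
      (8 * X * aa * (4 * X ^ 2 - 4 * C ^ 2) ^ (aa - 1)) X :=
    (quad (4 * C ^ 2)).rpow_const (p := aa) (Or.inl hA0.ne')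
  have d6 : HasDerivAt (fun X : ℝ => (4 * X ^ 2 - 4 * S ^ 2) ^ aa)
      (8 * X * aa * (4 * X ^ 2 - 4 * S ^ 2) ^ (aa - 1)) X :=
    (quad (4 * S ^ 2)).rpow_const (p := aa) (Or.inl hB0.ne')
  have d7 : HasDerivAt (fun X : ℝ => ((4 * X ^ 2 - 4 * C ^ 2) * (4 * X ^ 2 - 4 * S ^ 2) / 2) ^ aa)
      ((8 * X * (4 * X ^ 2 - 4 * S ^ 2) + (4 * X ^ 2 - 4 * C ^ 2) * (8 * X)) / 2 * aa *
        ((4 * X ^ 2 - 4 * C ^ 2) * (4 * X ^ 2 - 4 * S ^ 2) / 2) ^ (aa - 1)) X :=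
    (((quad (4 * C ^ 2)).mul (quad (4 * S ^ 2))).div_const 2).rpow_const (p := aa)
      (Or.inl (div_pos (mul_pos hA0 hB0) two_pos).ne')
  have e1 : ((4 * X ^ 2 - 4 * C ^ 2) * (4 * X ^ 2 - 4 * S ^ 2) / 2) ^ (aa - 1) *
      ((4 * X ^ 2 - 4 * S ^ 2) / 2) =
      (4 * X ^ 2 - 4 * C ^ 2) ^ (aa - 1) * ((4 * X ^ 2 - 4 * S ^ 2) / 2) ^ aa := by
    have hB2 : 0 < (4 * X ^ 2 - 4 * S ^ 2) / 2 := by linarith
    rw [mul_div_assoc, Real.mul_rpow hA0.le hB2.le, mul_assoc]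
    congr 1
    nth_rewrite 2 [← Real.rpow_one ((4 * X ^ 2 - 4 * S ^ 2) / 2)]
    rw [← Real.rpow_add hB2]
    congr 1
    ring
  have e2 : ((4 * X ^ 2 - 4 * C ^ 2) * (4 * X ^ 2 - 4 * S ^ 2) / 2) ^ (aa - 1) *
      ((4 * X ^ 2 - 4 * C ^ 2) / 2) =
      (4 * X ^ 2 - 4 * S ^ 2) ^ (aa - 1) * ((4 * X ^ 2 - 4 * C ^ 2) / 2) ^ aa := by
    have hA2 : 0 < (4 * X ^ 2 - 4 * C ^ 2) / 2 := by linarith
    rw [mul_comm (4 * X ^ 2 - 4 * C ^ 2) (4 * X ^ 2 - 4 * S ^ 2), mul_div_assoc,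
      Real.mul_rpow hB0.le hA2.le, mul_assoc]
    congr 1
    nth_rewrite 2 [← Real.rpow_one ((4 * X ^ 2 - 4 * C ^ 2) / 2)]
    rw [← Real.rpow_add hA2]
    congr 1
    ring
  have h := (((((d1.add d2).add d3).add d4).const_mul (kp / 4)).add
    ((d5.add d6).const_mul (kp * (205 / 2000)))).sub
    (((d7.const_mul (205 / 1000)).const_add 1).const_mul (10326 / 10000))
  have h' : HasDerivAt (fun X => FF X C S) _ X := h
  refine h'.congr_deriv ?_
  rw [← e1, ← e2]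
  ring

private theorem aa_pos' : 0 < aa := by
  unfold aa
  norm_num

private theorem FF_cont (C S : ℝ) : Continuous fun X => FF X C S := by
  have hr : ∀ f : ℝ → ℝ, Continuous f → Continuous fun X => f X ^ aa :=
    fun f hf => hf.rpow_const fun _ => Or.inr aa_pos'.le
  have c1 : Continuous fun X : ℝ => (2 * X + 2 * C) ^ aa := hr _ (by fun_prop)
  have c2 : Continuous fun X : ℝ => (2 * X - 2 * C) ^ aa := hr _ (by fun_prop)
  have c3 : Continuous fun X : ℝ => (2 * X + 2 * S) ^ aa := hr _ (by fun_prop)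
  have c4 : Continuous fun X : ℝ => (2 * X - 2 * S) ^ aa := hr _ (by fun_prop)
  have c5 : Continuous fun X : ℝ => (4 * X ^ 2 - 4 * C ^ 2) ^ aa := hr _ (by fun_prop)
  have c6 : Continuous fun X : ℝ => (4 * X ^ 2 - 4 * S ^ 2) ^ aa := hr _ (by fun_prop)
  have c7 : Continuous fun X : ℝ => ((4 * X ^ 2 - 4 * C ^ 2) * (4 * X ^ 2 - 4 * S ^ 2) / 2) ^ aa :=
    hr _ (by fun_prop)
  unfold FF
  exact ((continuous_const.mul (((c1.add c2).add c3).add c4)).add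
    (continuous_const.mul (c5.add c6))).sub
    (continuous_const.mul (continuous_const.add (continuous_const.mul c7)))

/-- `monotoneOn_of_deriv_nonneg`; continuity at `X = 1` as `aa > 0` -/
theorem FF_mono {C S : ℝ} (h0 : 0 ≤ C) (h1 : C ≤ 1) (hS : 0 ≤ S) (hS1 : S ≤ 1) :
    MonotoneOn (fun X => FF X C S) (Icc 1 (223 / 200)) := by
  refine monotoneOn_of_deriv_nonneg (convex_Icc _ _) (FF_cont C S).continuousOn ?_ ?_
  · intro X hX
    rw [interior_Icc] at hX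
    exact (FF_deriv hX.1 h0 h1 hS hS1).differentiableAt.differentiableWithinAt
  · intro X hX
    rw [interior_Icc] at hX
    rw [(FF_deriv hX.1 h0 h1 hS hS1).deriv]
    have h2 := pair_ineq hX.1 hX.2.le h0 h1 hS hS1
    have h3 := pair_ineq hX.1 hX.2.le hS hS1 h0 h1
    have h4 : 0 ≤ 2 * aa := by linarith [aa_pos']
    exact add_nonneg (mul_nonneg h4 (by linarith)) (mul_nonneg h4 (by linarith))

private theorem FF_swap (X C S : ℝ) : FF X S C = FF X C S := by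
  unfold FF
  rw [mul_comm (4 * X ^ 2 - 4 * S ^ 2) (4 * X ^ 2 - 4 * C ^ 2)]
  ring

private theorem FF_neg (X C S : ℝ) : FF X (-C) S = FF X C S := by
  unfold FF
  have e1 : 2 * X + 2 * -C = 2 * X - 2 * C := by ring
  have e2 : 2 * X - 2 * -C = 2 * X + 2 * C := by ring
  rw [e1, e2, neg_sq]
  ring

private theorem FF_abs (X C S : ℝ) : FF X |C| |S| = FF X C S := by
  have h1 : ∀ C S : ℝ, FF X |C| S = FF X C S := by
    intro C S
    rcases abs_choice C with h | h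
    · rw [h]
    · rw [h, FF_neg]
  rw [h1, ← FF_swap, h1, FF_swap]

/-- `FF` does not change under `C ↦ -C`, `S ↦ -S` and the exchange of `C` and `S`; `FF_mono` and
`one_dim'`. -/
theorem two_dim {X C S : ℝ} (h0 : 1 ≤ X) (h1 : X ≤ 223 / 200) (h : C ^ 2 + S ^ 2 = 1) :
    0 ≤ FF X C S := by
  have key : ∀ C S : ℝ, 0 ≤ S → S ≤ C → C ^ 2 + S ^ 2 = 1 → 0 ≤ FF X C S := by
    intro C S hS hSC h
    have hC : 0 ≤ C := hS.trans hSC
    have hC1 : C ≤ 1 := by nlinarith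
    have h2 := one_dim' hS hSC h
    have h3 := FF_mono hC hC1 hS (hSC.trans hC1) (left_mem_Icc.2 (h0.trans h1)) ⟨h0, h1⟩ h0
    exact h2.trans h3
  rw [← FF_abs]
  have h2 : |C| ^ 2 + |S| ^ 2 = 1 := by
    rw [sq_abs, sq_abs]
    exact h
  rcases le_total |S| |C| with h3 | h3
  · exact key _ _ (abs_nonneg _) h3 h2
  · rw [← FF_swap]
    exact key _ _ (abs_nonneg _) h3 (by linarith)

end Pool.Agent.Helper42.KN
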