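import Pool.Agent.Helper42.KN.Tab
import Pool.Agent.Helper42.KN.Defs

/-!
# KN-A: the inequality in one variable
-/

set_option autoImplicit false

namespace Pool.Agent.Helper42.KN

open Set

private theorem okpow_spec_pw {x e : ℝ} (hx : 0 ≤ x) (n j : ℕ) (he : e * n = j) :
    (x ^ e) ^ n = x ^ j := by
  rw [← Real.rpow_mul_natCast hx, he, Real.rpow_natCast]

private theorem okpow_spec_lo {A num den B n m : ℕ} (hd : 0 < den) (hB : 0 < B)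
    (h : A ^ n * den ^ m ≤ num ^ m * B ^ n) : ((A : ℝ) / B) ^ n ≤ ((num : ℝ) / den) ^ m := by
  have h1 : (0 : ℝ) < (B : ℝ) ^ n := pow_pos (Nat.cast_pos.2 hB) n
  have h2 : (0 : ℝ) < (den : ℝ) ^ m := pow_pos (Nat.cast_pos.2 hd) m
  rw [div_pow, div_pow, div_le_div_iff₀ h1 h2]
  exact_mod_cast h

private theorem okpow_spec_up {A num den B n m : ℕ} (hd : 0 < den) (hB : 0 < B)
    (h : num ^ m * B ^ n ≤ A ^ n * den ^ m) : ((num : ℝ) / den) ^ m ≤ ((A : ℝ) / B) ^ n := by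
  have h1 : (0 : ℝ) < (B : ℝ) ^ n := pow_pos (Nat.cast_pos.2 hB) n
  have h2 : (0 : ℝ) < (den : ℝ) ^ m := pow_pos (Nat.cast_pos.2 hd) m
  rw [div_pow, div_pow, div_le_div_iff₀ h2 h1]
  exact_mod_cast h

private theorem okpow_spec_aa : aa * ((4000 : ℕ) : ℝ) = ((1023 : ℕ) : ℝ) := by
  unfold aa
  rw [Nat.cast_ofNat, Nat.cast_ofNat]
  exact div_mul_cancel₀ _ (by norm_num)

/-- `A^4000 den^1023 ≤ num^1023 (10^5)^4000` gives `(A/10^5)^4000 ≤ (num/den)^1023`; take powers with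
the exponent `1/4000` (`Real.rpow_natCast`, `Real.rpow_mul`, `Real.rpow_le_rpow`); the same for the
upper bound. Avoid `norm_num` on the large powers (`Nat.cast_pow`, `exact_mod_cast`). -/
theorem okpow_spec {A num den : ℕ} (h : okpow A num den = true) (hd : 0 < den) :
    (A : ℝ) / 100000 ≤ ((num : ℝ) / den) ^ aa ∧ ((num : ℝ) / den) ^ aa ≤ ((A : ℝ) + 1) / 100000 := by
  unfold okpow at h
  rw [Bool.and_eq_true, decide_eq_true_eq, decide_eq_true_eq] at h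
  have hx : 0 ≤ (num : ℝ) / den := by positivity
  have hz : 0 ≤ ((num : ℝ) / den) ^ aa := Real.rpow_nonneg hx _
  have hp := okpow_spec_pw hx 4000 1023 okpow_spec_aa
  have h1 := okpow_spec_lo hd (by norm_num) h.1
  have h2 := okpow_spec_up hd (by norm_num) h.2
  rw [← hp] at h1 h2
  have hA : (0 : ℝ) ≤ (A : ℝ) / ((100000 : ℕ) : ℝ) := by positivity
  have hA' : (0 : ℝ) ≤ ((A + 1 : ℕ) : ℝ) / ((100000 : ℕ) : ℝ) := by positivity
  have h3 := (pow_le_pow_iff_left₀ hA hz (by decide)).1 h1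
  have h4 := (pow_le_pow_iff_left₀ hz hA' (by decide)).1 h2
  rw [Nat.cast_ofNat] at h3 h4
  rw [Nat.cast_add, Nat.cast_one] at h4
  exact ⟨h3, h4⟩

private theorem kp_lower_gen {a B j n : ℕ} (hB : 0 < B) (h : a ^ n * 2 ^ j ≤ B ^ n) :
    ((a : ℝ) / B) ^ n ≤ ((2 : ℝ) ^ j)⁻¹ := by
  have h1 : (0 : ℝ) < (B : ℝ) ^ n := pow_pos (Nat.cast_pos.2 hB) n
  have h2 : (0 : ℝ) < (2 : ℝ) ^ j := by positivity
  rw [div_pow, inv_eq_one_div, div_le_div_iff₀ h1 h2, one_mul]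
  exact_mod_cast h

private theorem m_upper_gen {a B j n : ℕ} (hB : 0 < B) (h : B ^ n ≤ a ^ n * 2 ^ j) :
    ((2 : ℝ) ^ j)⁻¹ ≤ ((a : ℝ) / B) ^ n := by
  have h1 : (0 : ℝ) < (B : ℝ) ^ n := pow_pos (Nat.cast_pos.2 hB) n
  have h2 : (0 : ℝ) < (2 : ℝ) ^ j := by positivity
  rw [div_pow, inv_eq_one_div, div_le_div_iff₀ h2 h1, one_mul]
  exact_mod_cast h

/-- `kp_ok` -/
theorem kp_lower : (942621 : ℝ) / 1000000 ≤ kp := by
  have hz : 0 ≤ kp := by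
    unfold kp
    exact Real.rpow_nonneg (by norm_num) _
  have hp : kp ^ 4000 = ((2 : ℝ) ^ 341)⁻¹ := by
    unfold kp
    have he : (341 / 4000 : ℝ) * ((4000 : ℕ) : ℝ) = ((341 : ℕ) : ℝ) := by
      rw [Nat.cast_ofNat, Nat.cast_ofNat]
      exact div_mul_cancel₀ _ (by norm_num)
    rw [Real.rpow_neg (by norm_num), inv_pow, okpow_spec_pw (by norm_num) 4000 341 he]
  have h1 := kp_lower_gen (by norm_num) kp_ok
  rw [← hp] at h1
  have hA : (0 : ℝ) ≤ ((942621 : ℕ) : ℝ) / ((1000000 : ℕ) : ℝ) := by positivity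
  have h3 := (pow_le_pow_iff_left₀ hA hz (by decide)).1 h1
  rwa [Nat.cast_ofNat, Nat.cast_ofNat] at h3

/-- `m_ok` -/
theorem m_upper : (2 : ℝ) ^ (-aa) ≤ 837552 / 1000000 := by
  have hz : (0 : ℝ) ≤ (2 : ℝ) ^ (-aa) := Real.rpow_nonneg (by norm_num) _
  have hp : ((2 : ℝ) ^ (-aa)) ^ 4000 = ((2 : ℝ) ^ 1023)⁻¹ := by
    rw [Real.rpow_neg (by norm_num), inv_pow, okpow_spec_pw (by norm_num) 4000 1023 okpow_spec_aa]
  have h1 := m_upper_gen (by norm_num) m_ok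
  rw [← hp] at h1
  have hA : (0 : ℝ) ≤ ((837552 : ℕ) : ℝ) / ((1000000 : ℕ) : ℝ) := by positivity
  have h3 := (pow_le_pow_iff_left₀ hz hA (by decide)).1 h1
  rwa [Nat.cast_ofNat, Nat.cast_ofNat] at h3

theorem kp_pos : 0 < kp := by
  unfold kp
  exact Real.rpow_pos_of_pos (by norm_num) _

/-- the four functions `T^a` on the circle `X = 1`, `C = (1 - u^2)/(1 + u^2)`, `S = 2u/(1 + u^2)` -/
noncomputable def qa (u : ℝ) : ℝ := (4 / (1 + u ^ 2)) ^ aa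
/-- second function -/
noncomputable def qb (u : ℝ) : ℝ := (4 * u ^ 2 / (1 + u ^ 2)) ^ aa
/-- third function -/
noncomputable def qc (u : ℝ) : ℝ := (2 * (1 + u) ^ 2 / (1 + u ^ 2)) ^ aa
/-- fourth function -/
noncomputable def qd (u : ℝ) : ℝ := (2 * (1 - u) ^ 2 / (1 + u ^ 2)) ^ aa

private theorem one_aa : (0 : ℝ) ≤ aa := by
  unfold aa
  norm_num

private theorem one_rp {x y : ℝ} (hx : 0 ≤ x) (h : x ≤ y) : x ^ aa ≤ y ^ aa :=
  Real.rpow_le_rpow hx h one_aa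

theorem qa_anti {u v : ℝ} (h0 : 0 ≤ u) (h : u ≤ v) : qa v ≤ qa u := by
  refine one_rp (by positivity) ?_
  have : u ^ 2 ≤ v ^ 2 := by nlinarith
  gcongr

theorem qb_mono {u v : ℝ} (h0 : 0 ≤ u) (h : u ≤ v) : qb u ≤ qb v := by
  refine one_rp (by positivity) ?_
  rw [div_le_div_iff₀ (by positivity) (by positivity)]
  nlinarith [mul_nonneg (sub_nonneg.2 h) (by linarith : (0 : ℝ) ≤ u + v)]

/-- `(1+u)^2/(1+u^2) = 1 + 2u/(1+u^2)` is increasing for `0 ≤ u ≤ 1` -/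
theorem qc_mono {u v : ℝ} (h0 : 0 ≤ u) (h : u ≤ v) (h1 : v ≤ 1) : qc u ≤ qc v := by
  refine one_rp (by positivity) ?_
  rw [div_le_div_iff₀ (by positivity) (by positivity)]
  have h2 : u * v ≤ 1 := by nlinarith
  nlinarith [mul_nonneg (sub_nonneg.2 h) (sub_nonneg.2 h2)]

theorem qd_anti {u v : ℝ} (h0 : 0 ≤ u) (h : u ≤ v) (h1 : v ≤ 1) : qd v ≤ qd u := by
  refine one_rp (by positivity) ?_
  rw [div_le_div_iff₀ (by positivity) (by positivity)]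
  have h2 : u * v ≤ 1 := by nlinarith
  nlinarith [mul_nonneg (sub_nonneg.2 h) (sub_nonneg.2 h2)]

/-- `qa u qb u = ((4 u / (1 + u^2))^2)^aa` -/
theorem pq_mono {u v : ℝ} (h0 : 0 ≤ u) (h : u ≤ v) (h1 : v ≤ 1) : qa u * qb u ≤ qa v * qb v := by
  have e : ∀ w : ℝ, qa w * qb w = ((4 * w / (1 + w ^ 2)) ^ 2) ^ aa := by
    intro w
    unfold qa qb
    rw [← Real.mul_rpow (by positivity) (by positivity)]
    congr 1
    field_simp
  have hv : 0 ≤ v := h0.trans h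
  rw [e, e]
  refine one_rp (by positivity) ?_
  refine pow_le_pow_left₀ (by positivity) ?_ 2
  rw [div_le_div_iff₀ (by positivity) (by positivity)]
  have h2 : u * v ≤ 1 := by nlinarith
  nlinarith [mul_nonneg (sub_nonneg.2 h) (sub_nonneg.2 h2)]

/-- `qc u qd u = (4 ((1 - u^2)/(1 + u^2))^2)^aa` -/
theorem rq_anti {u v : ℝ} (h0 : 0 ≤ u) (h : u ≤ v) (h1 : v ≤ 1) : qc v * qd v ≤ qc u * qd u := by
  have e : ∀ w : ℝ, qc w * qd w = (4 * ((1 - w ^ 2) / (1 + w ^ 2)) ^ 2) ^ aa := by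
    intro w
    unfold qc qd
    rw [← Real.mul_rpow (by positivity) (by positivity)]
    congr 1
    field_simp
    ring
  have hv : 0 ≤ v := h0.trans h
  have hv2 : 0 ≤ 1 - v ^ 2 := by nlinarith
  rw [e, e]
  refine one_rp (by positivity) ?_
  refine mul_le_mul_of_nonneg_left ?_ (by norm_num)
  refine pow_le_pow_left₀ (div_nonneg hv2 (by positivity)) ?_ 2
  rw [div_le_div_iff₀ (by positivity) (by positivity)]
  nlinarith [mul_nonneg (sub_nonneg.2 h) (by linarith : (0 : ℝ) ≤ u + v)]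

/-- `4 X^2 - 4 C^2 = 4 S^2` is the product of the first two numbers, etc.; `Real.mul_rpow` -/
theorem FF_one (u : ℝ) (h0 : 0 ≤ u) (h1 : u ≤ 1) :
    FF 1 ((1 - u ^ 2) / (1 + u ^ 2)) (2 * u / (1 + u ^ 2)) =
      kp / 4 * (qa u + qb u + qc u + qd u) + kp * (205 / 2000) * (qa u * qb u + qc u * qd u) -
      10326 / 10000 * (1 + 205 / 1000 * (2 ^ (-aa) * (qa u * qb u) * (qc u * qd u))) := by
  have hd : 0 < 1 + u ^ 2 := by positivity
  have hd' : 1 + u ^ 2 ≠ 0 := hd.ne'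
  have e1 : 2 * 1 + 2 * ((1 - u ^ 2) / (1 + u ^ 2)) = 4 / (1 + u ^ 2) := by
    field_simp
    ring
  have e2 : 2 * 1 - 2 * ((1 - u ^ 2) / (1 + u ^ 2)) = 4 * u ^ 2 / (1 + u ^ 2) := by
    field_simp
    ring
  have e3 : 2 * 1 + 2 * (2 * u / (1 + u ^ 2)) = 2 * (1 + u) ^ 2 / (1 + u ^ 2) := by
    field_simp
    ring
  have e4 : 2 * 1 - 2 * (2 * u / (1 + u ^ 2)) = 2 * (1 - u) ^ 2 / (1 + u ^ 2) := by
    field_simp
    ring
  have e5 : 4 * (1 : ℝ) ^ 2 - 4 * ((1 - u ^ 2) / (1 + u ^ 2)) ^ 2 =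
      4 / (1 + u ^ 2) * (4 * u ^ 2 / (1 + u ^ 2)) := by
    rw [← e1, ← e2]
    ring
  have e6 : 4 * (1 : ℝ) ^ 2 - 4 * (2 * u / (1 + u ^ 2)) ^ 2 =
      2 * (1 + u) ^ 2 / (1 + u ^ 2) * (2 * (1 - u) ^ 2 / (1 + u ^ 2)) := by
    rw [← e3, ← e4]
    ring
  have p1 : 0 ≤ 4 / (1 + u ^ 2) := by positivity
  have p2 : 0 ≤ 4 * u ^ 2 / (1 + u ^ 2) := by positivity
  have p3 : 0 ≤ 2 * (1 + u) ^ 2 / (1 + u ^ 2) := by positivity
  have p4 : 0 ≤ 2 * (1 - u) ^ 2 / (1 + u ^ 2) := by positivity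
  unfold FF qa qb qc qd
  rw [e5, e6, e1, e2, e3, e4, Real.mul_rpow p1 p2, Real.mul_rpow p3 p4, div_eq_mul_inv _ (2 : ℝ),
    Real.mul_rpow (mul_nonneg (mul_nonneg p1 p2) (mul_nonneg p3 p4)) (by norm_num),
    Real.mul_rpow (mul_nonneg p1 p2) (mul_nonneg p3 p4), Real.mul_rpow p1 p2, Real.mul_rpow p3 p4,
    Real.inv_rpow (by norm_num), Real.rpow_neg (by norm_num)]
  ring

/-- the numbers of a grid point (`okpow_spec`; `num / den` is the number `T` at `u = n / 10^6`) -/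
theorem okPt_spec {t : ℕ × ℕ × ℕ × ℕ × ℕ} (h : okPt t = true) (h1 : t.1 ≤ 1000000) :
    ((t.2.1 : ℝ) / 100000 ≤ qa (t.1 / 1000000) ∧ qa (t.1 / 1000000) ≤ ((t.2.1 : ℝ) + 1) / 100000) ∧
    ((t.2.2.1 : ℝ) / 100000 ≤ qb (t.1 / 1000000) ∧
      qb (t.1 / 1000000) ≤ ((t.2.2.1 : ℝ) + 1) / 100000) ∧
    ((t.2.2.2.1 : ℝ) / 100000 ≤ qc (t.1 / 1000000) ∧
      qc (t.1 / 1000000) ≤ ((t.2.2.2.1 : ℝ) + 1) / 100000) ∧
    ((t.2.2.2.2 : ℝ) / 100000 ≤ qd (t.1 / 1000000) ∧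
      qd (t.1 / 1000000) ≤ ((t.2.2.2.2 : ℝ) + 1) / 100000) := by
  unfold okPt at h
  simp only [Bool.and_eq_true] at h
  obtain ⟨⟨⟨ha, hb⟩, hc⟩, hd⟩ := h
  have hden : 0 < 1000000 ^ 2 + t.1 ^ 2 := by positivity
  have hdR : (0 : ℝ) < 1000000000000 + (t.1 : ℝ) ^ 2 := by positivity
  have hdR' : (0 : ℝ) < 1 + ((t.1 : ℝ) / 1000000) ^ 2 := by positivity
  have ea : ((4 * 1000000 ^ 2 : ℕ) : ℝ) / ((1000000 ^ 2 + t.1 ^ 2 : ℕ) : ℝ) =
      4 / (1 + ((t.1 : ℝ) / 1000000) ^ 2) := by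
    push_cast
    norm_num only
    rw [div_eq_div_iff hdR.ne' hdR'.ne']
    ring
  have eb : ((4 * t.1 ^ 2 : ℕ) : ℝ) / ((1000000 ^ 2 + t.1 ^ 2 : ℕ) : ℝ) =
      4 * ((t.1 : ℝ) / 1000000) ^ 2 / (1 + ((t.1 : ℝ) / 1000000) ^ 2) := by
    push_cast
    norm_num only
    rw [div_eq_div_iff hdR.ne' hdR'.ne']
    ring
  have ec : ((2 * (1000000 + t.1) ^ 2 : ℕ) : ℝ) / ((1000000 ^ 2 + t.1 ^ 2 : ℕ) : ℝ) =
      2 * (1 + (t.1 : ℝ) / 1000000) ^ 2 / (1 + ((t.1 : ℝ) / 1000000) ^ 2) := by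
    push_cast
    norm_num only
    rw [div_eq_div_iff hdR.ne' hdR'.ne']
    ring
  have ed : ((2 * (1000000 - t.1) ^ 2 : ℕ) : ℝ) / ((1000000 ^ 2 + t.1 ^ 2 : ℕ) : ℝ) =
      2 * (1 - (t.1 : ℝ) / 1000000) ^ 2 / (1 + ((t.1 : ℝ) / 1000000) ^ 2) := by
    rw [Nat.cast_mul, Nat.cast_pow, Nat.cast_sub h1]
    push_cast
    norm_num only
    rw [div_eq_div_iff hdR.ne' hdR'.ne']
    ring
  have ha' := okpow_spec ha hden
  have hb' := okpow_spec hb hden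
  have hc' := okpow_spec hc hden
  have hd' := okpow_spec hd hden
  rw [ea] at ha'
  rw [eb] at hb'
  rw [ec] at hc'
  rw [ed] at hd'
  exact ⟨ha', hb', hc', hd'⟩

/-- Let `a₁, .., a₄` and `b₁, .., b₄` be the numbers of `x` and `y` (times `10^(-5)`, `okPt_spec`). On the
interval `[x.1, y.1] / 10^6`: `qa ≥ b₁`, `qb ≥ a₂`, `qc ≥ a₃`, `qd ≥ b₄`; `a₁ a₂ ≤ qa qb ≤ (b₁+1)(b₂+1)`
(`pq_mono`), `b₃ b₄ ≤ qc qd ≤ (a₃+1)(a₄+1)` (`rq_anti`); then `FF_one`, `okSt`, `kp_lower`, `m_upper`. -/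
theorem okSt_spec {x y : ℕ × ℕ × ℕ × ℕ × ℕ} (hx : okPt x = true) (hy : okPt y = true)
    (hxy : x.1 ≤ y.1) (hy1 : y.1 ≤ 1000000) (h : okSt x y = true) {u : ℝ}
    (h1 : (x.1 : ℝ) / 1000000 ≤ u) (h2 : u ≤ (y.1 : ℝ) / 1000000) :
    0 ≤ FF 1 ((1 - u ^ 2) / (1 + u ^ 2)) (2 * u / (1 + u ^ 2)) := by
  obtain ⟨x0, a1, a2, a3, a4⟩ := x
  obtain ⟨y0, b1, b2, b3, b4⟩ := y
  simp only at hxy hy1 h1 h2
  have hx1 : x0 ≤ 1000000 := hxy.trans hy1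
  obtain ⟨⟨ax1, ax1'⟩, ⟨ax2, ax2'⟩, ⟨ax3, ax3'⟩, ⟨ax4, ax4'⟩⟩ := okPt_spec hx hx1
  obtain ⟨⟨by1, by1'⟩, ⟨by2, by2'⟩, ⟨by3, by3'⟩, ⟨by4, by4'⟩⟩ := okPt_spec hy hy1
  simp only at ax1 ax1' ax2 ax2' ax3 ax3' ax4 ax4' by1 by1' by2 by2' by3 by3' by4 by4'
  have hX0 : (0 : ℝ) ≤ (x0 : ℝ) / 1000000 := by positivity
  have hY1 : (y0 : ℝ) / 1000000 ≤ 1 := by
    rw [div_le_one (by norm_num)]
    exact_mod_cast hy1
  have hu0 : 0 ≤ u := hX0.trans h1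
  have hu1 : u ≤ 1 := h2.trans hY1
  have hqa : ∀ v : ℝ, 0 ≤ qa v := fun v => Real.rpow_nonneg (by positivity) _
  have hqb : ∀ v : ℝ, 0 ≤ qb v := fun v => Real.rpow_nonneg (by positivity) _
  have hqc : ∀ v : ℝ, 0 ≤ qc v := fun v => Real.rpow_nonneg (by positivity) _
  have hqd : ∀ v : ℝ, 0 ≤ qd v := fun v => Real.rpow_nonneg (by positivity) _
  -- the four lower bounds
  have l1 : (b1 : ℝ) / 100000 ≤ qa u := by1.trans (qa_anti hu0 h2)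
  have l2 : (a2 : ℝ) / 100000 ≤ qb u := ax2.trans (qb_mono hX0 h1)
  have l3 : (a3 : ℝ) / 100000 ≤ qc u := ax3.trans (qc_mono hX0 h1 hu1)
  have l4 : (b4 : ℝ) / 100000 ≤ qd u := by4.trans (qd_anti hu0 h2 hY1)
  -- the products
  have p1 : (a1 : ℝ) / 100000 * ((a2 : ℝ) / 100000) ≤ qa u * qb u :=
    (mul_le_mul ax1 ax2 (by positivity) (hqa _)).trans (pq_mono hX0 h1 hu1)
  have p2 : qa u * qb u ≤ ((b1 : ℝ) + 1) / 100000 * (((b2 : ℝ) + 1) / 100000) :=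
    (pq_mono hu0 h2 hY1).trans (mul_le_mul by1' by2' (hqb _) (by positivity))
  have q1 : (b3 : ℝ) / 100000 * ((b4 : ℝ) / 100000) ≤ qc u * qd u :=
    (mul_le_mul by3 by4 (by positivity) (hqc _)).trans (rq_anti hu0 h2 hY1)
  have q2 : qc u * qd u ≤ ((a3 : ℝ) + 1) / 100000 * (((a4 : ℝ) + 1) / 100000) :=
    (rq_anti hX0 h1 hu1).trans (mul_le_mul ax3' ax4' (hqd _) (by positivity))
  have hm0 : (0 : ℝ) ≤ (2 : ℝ) ^ (-aa) := Real.rpow_nonneg (by norm_num) _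
  have hP0 : 0 ≤ qa u * qb u := mul_nonneg (hqa u) (hqb u)
  have hQ0 : 0 ≤ qc u * qd u := mul_nonneg (hqc u) (hqd u)
  have hM : (2 : ℝ) ^ (-aa) * (qa u * qb u) * (qc u * qd u) ≤
      837552 / 1000000 * (((b1 : ℝ) + 1) / 100000 * (((b2 : ℝ) + 1) / 100000)) *
        (((a3 : ℝ) + 1) / 100000 * (((a4 : ℝ) + 1) / 100000)) :=
    mul_le_mul (mul_le_mul m_upper p2 hP0 (by norm_num)) q2 hQ0 (by positivity)
  have hT0 : ((b1 : ℝ) / 100000 + (a2 : ℝ) / 100000 + (a3 : ℝ) / 100000 + (b4 : ℝ) / 100000) / 4 +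
      205 / 2000 * ((a1 : ℝ) / 100000 * ((a2 : ℝ) / 100000) +
        (b3 : ℝ) / 100000 * ((b4 : ℝ) / 100000)) ≤
      (qa u + qb u + qc u + qd u) / 4 + 205 / 2000 * (qa u * qb u + qc u * qd u) := by
    linarith
  have hK := mul_le_mul kp_lower hT0 (by positivity) kp_pos.le
  have hR : (10326 : ℝ) * 400000 * (10 ^ 9 * 100000 ^ 4 + 205 * 837552 *
      (((b1 : ℝ) + 1) * ((b2 : ℝ) + 1) * ((a3 : ℝ) + 1) * ((a4 : ℝ) + 1))) ≤
    942621 * 10 ^ 9 * (1000 * 100000 ^ 3 * ((b1 : ℝ) + a2 + a3 + b4) +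
      410 * 100000 ^ 2 * ((a1 : ℝ) * a2 + (b3 : ℝ) * b4)) := by
    have := of_decide_eq_true h
    exact_mod_cast this
  have hS : (10326 : ℝ) / 10000 * (1 + 205 / 1000 *
      (837552 / 1000000 * (((b1 : ℝ) + 1) / 100000 * (((b2 : ℝ) + 1) / 100000)) *
        (((a3 : ℝ) + 1) / 100000 * (((a4 : ℝ) + 1) / 100000)))) ≤
      942621 / 1000000 *
      (((b1 : ℝ) / 100000 + (a2 : ℝ) / 100000 + (a3 : ℝ) / 100000 + (b4 : ℝ) / 100000) / 4 +
      205 / 2000 * ((a1 : ℝ) / 100000 * ((a2 : ℝ) / 100000) +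
        (b3 : ℝ) / 100000 * ((b4 : ℝ) / 100000))) := by
    have e1 : (10326 : ℝ) / 10000 * (1 + 205 / 1000 *
      (837552 / 1000000 * (((b1 : ℝ) + 1) / 100000 * (((b2 : ℝ) + 1) / 100000)) *
        (((a3 : ℝ) + 1) / 100000 * (((a4 : ℝ) + 1) / 100000)))) =
        (10326 * 400000 * (10 ^ 9 * 100000 ^ 4 + 205 * 837552 *
        (((b1 : ℝ) + 1) * ((b2 : ℝ) + 1) * ((a3 : ℝ) + 1) * ((a4 : ℝ) + 1)))) /
          (4 * 10 ^ 38) := by
      ring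
    have e2 : (942621 : ℝ) / 1000000 *
      (((b1 : ℝ) / 100000 + (a2 : ℝ) / 100000 + (a3 : ℝ) / 100000 + (b4 : ℝ) / 100000) / 4 +
      205 / 2000 * ((a1 : ℝ) / 100000 * ((a2 : ℝ) / 100000) +
        (b3 : ℝ) / 100000 * ((b4 : ℝ) / 100000))) =
        (942621 * 10 ^ 9 * (1000 * 100000 ^ 3 * ((b1 : ℝ) + a2 + a3 + b4) +
      410 * 100000 ^ 2 * ((a1 : ℝ) * a2 + (b3 : ℝ) * b4))) / (4 * 10 ^ 38) := by
      ring
    rw [e1, e2]
    exact div_le_div_of_nonneg_right hR (by positivity)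
  rw [FF_one u hu0 hu1]
  have hfin : kp / 4 * (qa u + qb u + qc u + qd u) +
      kp * (205 / 2000) * (qa u * qb u + qc u * qd u) =
      kp * ((qa u + qb u + qc u + qd u) / 4 + 205 / 2000 * (qa u * qb u + qc u * qd u)) := by
    ring
  rw [hfin]
  linarith

private theorem okAll_spec_head (l : List (ℕ × ℕ × ℕ × ℕ × ℕ)) (x : ℕ × ℕ × ℕ × ℕ × ℕ)
    (h : okAll (x :: l) = true) : okPt x = true ∧ x.1 ≤ 1000000 := by
  induction l generalizing x with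
  | nil =>
    rw [okAll, Bool.and_eq_true, decide_eq_true_eq] at h
    exact h
  | cons y l ih =>
    rw [okAll, Bool.and_eq_true, Bool.and_eq_true, Bool.and_eq_true, decide_eq_true_eq] at h
    exact ⟨h.1.1.1, h.1.1.2.trans (ih y h.2).2⟩

/-- induction on the list -/
theorem okAll_spec (l : List (ℕ × ℕ × ℕ × ℕ × ℕ)) (x z : ℕ × ℕ × ℕ × ℕ × ℕ)
    (h : okAll (x :: l) = true) (hz : (x :: l).getLast? = some z) {u : ℝ}
    (h1 : (x.1 : ℝ) / 1000000 ≤ u) (h2 : u ≤ (z.1 : ℝ) / 1000000) (hxz : x.1 < z.1) :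
    0 ≤ FF 1 ((1 - u ^ 2) / (1 + u ^ 2)) (2 * u / (1 + u ^ 2)) := by
  induction l generalizing x with
  | nil =>
    rw [List.getLast?_singleton] at hz
    rw [Option.some.inj hz] at hxz
    exact absurd hxz (lt_irrefl _)
  | cons y l ih =>
    have h0 := h
    rw [okAll, Bool.and_eq_true, Bool.and_eq_true, Bool.and_eq_true, decide_eq_true_eq] at h0
    have hy := okAll_spec_head l y h0.2
    have hz' : (y :: l).getLast? = some z := by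
      rw [← hz]
      exact (List.getLast?_cons_cons).symm
    rcases le_or_gt u ((y.1 : ℝ) / 1000000) with hu | hu
    · exact okSt_spec h0.1.1.1 hy.1 h0.1.1.2 hy.2 h0.1.2 h1 hu
    · refine ih y h0.2 hz' hu.le ?_
      have h3 : (y.1 : ℝ) / 1000000 < (z.1 : ℝ) / 1000000 := hu.trans_le h2
      have h4 : (y.1 : ℝ) < z.1 := by
        rw [div_lt_div_iff_of_pos_right (by norm_num)] at h3
        exact h3
      exact_mod_cast h4

/-- `okAll_spec`, `Tab_ok`, `Tab_head`, `Tab_last` -/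
theorem one_dim {u : ℝ} (h0 : 0 ≤ u) (h1 : u ≤ 4143 / 10000) :
    0 ≤ FF 1 ((1 - u ^ 2) / (1 + u ^ 2)) (2 * u / (1 + u ^ 2)) := by
  have key : ∀ T : List (ℕ × ℕ × ℕ × ℕ × ℕ), okAll T = true →
      T.head? = some (0, 142553, 0, 119395, 119395) →
      (T.getLast?).map (fun t => t.1) = some 414300 →
      0 ≤ FF 1 ((1 - u ^ 2) / (1 + u ^ 2)) (2 * u / (1 + u ^ 2)) := by
    intro T hT hh hl
    cases T with
    | nil =>
      rw [List.head?_nil] at hh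
      exact absurd hh (by simp)
    | cons x l =>
      rw [List.head?_cons] at hh
      have hx : x.1 = 0 := by rw [Option.some.inj hh]
      obtain ⟨z, hz, hz1⟩ := Option.map_eq_some_iff.1 hl
      refine okAll_spec l x z hT hz ?_ ?_ ?_
      · rw [hx, Nat.cast_zero, zero_div]
        exact h0
      · rw [hz1]
        refine h1.trans (le_of_eq ?_)
        norm_num
      · rw [hx, hz1]
        norm_num
  exact key Tab Tab_ok Tab_head Tab_last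

/-- `u = S / (1 + C) ≤ √2 - 1 ≤ 0.4143` -/
theorem one_dim' {C S : ℝ} (h0 : 0 ≤ S) (h1 : S ≤ C) (h : C ^ 2 + S ^ 2 = 1) : 0 ≤ FF 1 C S := by
  have hC0 : 0 ≤ C := h0.trans h1
  have hC1 : 0 < 1 + C := by linarith
  have hC2 : 7071 / 10000 ≤ C := by
    by_contra hc
    rw [not_le] at hc
    nlinarith
  have hu0 : 0 ≤ S / (1 + C) := div_nonneg h0 hC1.le
  have hu1 : S / (1 + C) ≤ 4143 / 10000 := by
    rw [div_le_iff₀ hC1]
    refine le_of_sq_le_sq ?_ (by positivity)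
    have hS : S ^ 2 = (1 - C) * (1 + C) := by linarith
    rw [hS]
    have h3 : 1 - C ≤ (4143 / 10000) ^ 2 * (1 + C) := by
      norm_num
      linarith
    nlinarith
  have e1 : 1 + (S / (1 + C)) ^ 2 = 2 / (1 + C) := by
    field_simp
    nlinarith
  have e2 : 1 - (S / (1 + C)) ^ 2 = 2 * C / (1 + C) := by
    field_simp
    nlinarith
  have e3 := one_dim hu0 hu1
  rw [e1, e2] at e3
  have e4 : 2 * C / (1 + C) / (2 / (1 + C)) = C := by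
    field_simp
  have e5 : 2 * (S / (1 + C)) / (2 / (1 + C)) = S := by
    field_simp
  rw [e4, e5] at e3
  exact e3

end Pool.Agent.Helper42.KN
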