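import Pool.Agent.Helper42.KN.Fn
import Pool.Agent.Helper42.KN.Alg

/-!
# KN-F: near the unit circle `XX (f z) ≤ 1.115`
-/

set_option autoImplicit false

namespace Pool.Agent.Helper42.KN

open Complex Metric Set Pool.Agent.Helper42.LB

variable {B : ℂ → ℂ}

/-- induction on `j` with `XX_contr` (`w = fn B z`, `w' = fn B (z^4)`, `fn_pow1`) -/
theorem XX_iter (S : Sl B) (j : ℕ) {z : ℂ} (hz : z ∈ ball (0 : ℂ) 1) (h : z ≠ 0) :
    XX (fn B z) ≤ max (223 / 200) ((93 / 100) ^ j * XX (fn B (z ^ 4 ^ j))) := by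
  induction j with
  | zero => simp
  | succ j ih =>
    have hpow : ∀ k : ℕ, k ≠ 0 → z ^ k ∈ ball (0 : ℂ) 1 := by
      intro k hk
      rw [mem_ball_zero_iff] at hz ⊢
      rw [norm_pow]
      exact pow_lt_one₀ (norm_nonneg z) hz hk
    have hj : z ^ 4 ^ j ∈ ball (0 : ℂ) 1 := hpow _ (pow_ne_zero j (by norm_num))
    have hj0 : z ^ 4 ^ j ≠ 0 := pow_ne_zero _ h
    have hj1 : (z ^ 4 ^ j) ^ 4 = z ^ 4 ^ (j + 1) := by rw [← pow_mul, pow_succ]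
    have hj2 : z ^ 4 ^ (j + 1) ∈ ball (0 : ℂ) 1 := hpow _ (pow_ne_zero _ (by norm_num))
    have hj3 : z ^ 4 ^ (j + 1) ≠ 0 := pow_ne_zero _ h
    have hc := XX_contr (fn_mem1 S hj2) (fn_ne1 (B := B) hj3) (fn_mem1 S hj) (fn_ne1 (B := B) hj0)
      (by rw [fn_pow1 S hj, hj1])
    refine ih.trans (max_le (le_max_left _ _) ?_)
    have hp : (0 : ℝ) ≤ (93 / 100) ^ j := by positivity
    have hp1 : ((93 : ℝ) / 100) ^ j ≤ 1 := pow_le_one₀ (by norm_num) (by norm_num)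
    refine (mul_le_mul_of_nonneg_left hc hp).trans ?_
    rw [mul_max_of_nonneg _ _ hp]
    refine max_le_max ?_ (le_of_eq ?_)
    · linarith
    · rw [pow_succ]; ring

/-- `XX (fn B z)` is bounded by `M` for `1/16 ≤ ‖z‖ ≤ 1/2` (compactness). Choose `J` with
`(93/100)^J M ≤ 1` and `r₁ = (1/2)^(1/4^J)`. For `‖z‖ ≥ r₁` (`‖z‖ > r₁`) let `j` be the smallest number
with `‖z‖^(4^j) ≤ 1/2`; then `j ≥ J` and `‖z‖^(4^j) ≥ 1/16`; `XX_iter`. -/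
theorem region (S : Sl B) : ∃ r₁ : ℝ, 0 < r₁ ∧ r₁ < 1 ∧ ∀ z ∈ ball (0 : ℂ) 1, r₁ ≤ ‖z‖ →
    XX (fn B z) ≤ 223 / 200 := by
  classical
  -- the compact annulus
  have hA : IsCompact (closedBall (0 : ℂ) (1 / 2) ∩ {z : ℂ | 1 / 16 ≤ ‖z‖}) :=
    (isCompact_closedBall (0 : ℂ) (1 / 2)).inter_right
      (isClosed_le continuous_const continuous_norm)
  have hsub : closedBall (0 : ℂ) (1 / 2) ∩ {z : ℂ | 1 / 16 ≤ ‖z‖} ⊆ ball (0 : ℂ) 1 :=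
    inter_subset_left.trans (closedBall_subset_ball (by norm_num))
  have hcont : ContinuousOn (fun z => XX (fn B z))
      (closedBall (0 : ℂ) (1 / 2) ∩ {z : ℂ | 1 / 16 ≤ ‖z‖}) := by
    have h1 : ContinuousOn (fun z => ‖fn B z‖)
        (closedBall (0 : ℂ) (1 / 2) ∩ {z : ℂ | 1 / 16 ≤ ‖z‖}) :=
      ((fn_diff1 S).continuousOn.mono hsub).norm
    have h2 : ∀ z ∈ closedBall (0 : ℂ) (1 / 2) ∩ {z : ℂ | 1 / 16 ≤ ‖z‖}, ‖fn B z‖ ≠ 0 := by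
      intro z hz
      have h3 : z ≠ 0 := by
        rintro rfl
        have h4 : (1 : ℝ) / 16 ≤ ‖(0 : ℂ)‖ := hz.2
        rw [norm_zero] at h4
        norm_num at h4
      exact norm_ne_zero_iff.2 (fn_ne1 h3)
    exact (h1.add (continuousOn_const.div h1 h2)).div_const 2
  obtain ⟨M, hM⟩ := hA.bddAbove_image hcont
  have hM' : ∀ z : ℂ, ‖z‖ ≤ 1 / 2 → 1 / 16 ≤ ‖z‖ → XX (fn B z) ≤ M := by
    intro z h1 h2
    exact hM ⟨z, ⟨mem_closedBall_zero_iff.2 h1, h2⟩, rfl⟩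
  -- the number of steps
  obtain ⟨J, hJ⟩ : ∃ J : ℕ, ((93 : ℝ) / 100) ^ J * max M 0 ≤ 1 := by
    have h1 : Filter.Tendsto (fun n : ℕ => ((93 : ℝ) / 100) ^ n * max M 0) Filter.atTop
        (nhds (0 * max M 0)) :=
      (tendsto_pow_atTop_nhds_zero_of_lt_one (by norm_num) (by norm_num)).mul_const _
    rw [zero_mul] at h1
    obtain ⟨J, hJ⟩ := (h1.eventually_le_const (by norm_num : (0 : ℝ) < 1)).exists
    exact ⟨J, hJ⟩
  have h4 : (0 : ℝ) < 4 ^ (J + 1) := by positivity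
  have h4' : (1 : ℝ) ≤ 4 ^ (J + 1) := one_le_pow₀ (by norm_num)
  have hx0 : 0 < 1 / (2 * (4 : ℝ) ^ (J + 1)) := by positivity
  have hx1 : 1 / (2 * (4 : ℝ) ^ (J + 1)) ≤ 1 / 2 := by
    apply one_div_le_one_div_of_le (by norm_num)
    linarith
  refine ⟨1 - 1 / (2 * 4 ^ (J + 1)), by linarith, by linarith, ?_⟩
  intro z hz hr
  have hz1 : ‖z‖ < 1 := mem_ball_zero_iff.1 hz
  have hz0' : 0 < ‖z‖ := by linarith
  have hz0 : z ≠ 0 := norm_pos_iff.1 hz0'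
  -- Bernoulli
  have hB : 1 / 2 ≤ ‖z‖ ^ 4 ^ (J + 1) := by
    have h5 := one_add_mul_le_pow (R := ℝ) (a := -(1 / (2 * 4 ^ (J + 1)))) (by linarith)
      (4 ^ (J + 1))
    have h6 : (1 : ℝ) + ((4 ^ (J + 1) : ℕ) : ℝ) * -(1 / (2 * 4 ^ (J + 1))) = 1 / 2 := by
      push_cast
      field_simp
      norm_num
    have h7 : (1 + -(1 / (2 * (4 : ℝ) ^ (J + 1)))) ^ 4 ^ (J + 1) ≤ ‖z‖ ^ 4 ^ (J + 1) :=
      pow_le_pow_left₀ (by linarith) (by linarith) _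
    linarith
  -- the first `j`
  have hex : ∃ j : ℕ, ‖z‖ ^ 4 ^ j ≤ 1 / 2 := by
    have h5 : Filter.Tendsto (fun n : ℕ => ‖z‖ ^ 4 ^ n) Filter.atTop (nhds 0) :=
      (tendsto_pow_atTop_nhds_zero_of_lt_one hz0'.le hz1).comp
        (tendsto_pow_atTop_atTop_of_one_lt (by norm_num : (1 : ℕ) < 4))
    exact (h5.eventually_le_const (by norm_num : (0 : ℝ) < 1 / 2)).exists
  obtain ⟨j, hj⟩ : ∃ j, Nat.find hex = j := ⟨_, rfl⟩
  have hj1 : ‖z‖ ^ 4 ^ j ≤ 1 / 2 := hj ▸ Nat.find_spec hex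
  have hj2 : ∀ i < j, 1 / 2 < ‖z‖ ^ 4 ^ i := by
    intro i hi
    have := Nat.find_min hex (hj ▸ hi)
    exact not_le.1 this
  have hJj : J + 1 ≤ j := by
    by_contra hlt
    have h5 : 4 ^ j < 4 ^ (J + 1) := Nat.pow_lt_pow_right (by norm_num) (not_le.1 hlt)
    have h6 : ‖z‖ ^ 4 ^ (J + 1) < ‖z‖ ^ 4 ^ j := pow_lt_pow_right_of_lt_one₀ hz0' hz1 h5
    linarith
  obtain ⟨i, rfl⟩ : ∃ i, j = i + 1 := ⟨j - 1, by omega⟩
  have hi := hj2 i (by omega)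
  have hlow : 1 / 16 ≤ ‖z‖ ^ 4 ^ (i + 1) := by
    rw [pow_succ 4 i, pow_mul]
    have h5 : ((1 : ℝ) / 2) ^ 4 ≤ (‖z‖ ^ 4 ^ i) ^ 4 := pow_le_pow_left₀ (by norm_num) hi.le 4
    norm_num at h5 ⊢
    exact h5
  have hX : XX (fn B (z ^ 4 ^ (i + 1))) ≤ M :=
    hM' _ (by rw [norm_pow]; exact hj1) (by rw [norm_pow]; exact hlow)
  refine (XX_iter S (i + 1) hz hz0).trans (max_le le_rfl ?_)
  have h5 : ((93 : ℝ) / 100) ^ (i + 1) ≤ (93 / 100) ^ J :=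
    pow_le_pow_of_le_one (by norm_num) (by norm_num) (by omega)
  have h6 : (0 : ℝ) ≤ (93 / 100) ^ (i + 1) := by positivity
  calc (93 / 100) ^ (i + 1) * XX (fn B (z ^ 4 ^ (i + 1))) ≤ (93 / 100) ^ (i + 1) * max M 0 :=
        mul_le_mul_of_nonneg_left (hX.trans (le_max_left _ _)) h6
    _ ≤ (93 / 100) ^ J * max M 0 := mul_le_mul_of_nonneg_right h5 (le_max_right _ _)
    _ ≤ 1 := hJ
    _ ≤ 223 / 200 := by norm_num

private lemma mean4_fn (S : Sl B) {z : ℂ} (hz : z ∈ ball (0 : ℂ) 1) (u : ℂ → ℝ) :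
    mean4 (fun v => u (fn B v)) z = mean4 u (fn B z) := by
  have hI : I * z ∈ ball (0 : ℂ) 1 := by
    rw [mem_ball_zero_iff] at hz ⊢
    rw [norm_mul, norm_I, one_mul]
    exact hz
  unfold mean4
  simp only [fn_neg1 S hI, fn_neg1 S hz, fn_I1 S hz]

private lemma pow_mem {z : ℂ} (hz : z ∈ ball (0 : ℂ) 1) : z ^ 4 ∈ ball (0 : ℂ) 1 := by
  rw [mem_ball_zero_iff] at hz ⊢
  rw [norm_pow]
  exact pow_lt_one₀ (norm_nonneg z) hz (by norm_num)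

/-- `transfer` for the points `w = fn B z`, `w' = fn B (z^4)` (`fn_I1`, `fn_neg1`) -/
theorem transfer_fn (S : Sl B) {z : ℂ} (hz : z ∈ ball (0 : ℂ) 1) (h : z ≠ 0)
    (hX : XX (fn B z) ≤ 223 / 200) : 10326 / 10000 * hh (fn B (z ^ 4)) ≤
      mean4 (fun v => Real.exp (pp * ps B v) * hh (fn B v)) z := by
  have key := transfer (fn_mem1 S (pow_mem hz)) (fn_ne1 (pow_ne_zero 4 h)) (fn_mem1 S hz)
    (fn_ne1 h) (fn_pow1 S hz) hX
  have e := mean4_fn S hz (fun w => Real.exp (pp * (LL w).re) * hh w)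
  rw [← e] at key
  exact key

/-- `start_ineq` -/
theorem start_fn (S : Sl B) : ∃ c : ℝ, 0 < c ∧ ∀ z ∈ ball (0 : ℂ) 1, z ≠ 0 →
    XX (fn B (z ^ 4)) ≤ 2 → c * hh (fn B (z ^ 4)) ≤ mean4 (fun v => Real.exp (pp * ps B v)) z := by
  obtain ⟨c, hc, H⟩ := start_ineq
  refine ⟨c, hc, fun z hz h hX => ?_⟩
  have key := H (fn B z) (fn B (z ^ 4)) (fn_mem1 S (pow_mem hz)) (fn_ne1 (pow_ne_zero 4 h))
    (fn_mem1 S hz) (fn_ne1 h) (fn_pow1 S hz) hX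
  have e := mean4_fn S hz (fun w => Real.exp (pp * (LL w).re))
  rw [← e] at key
  exact key

end Pool.Agent.Helper42.KN
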